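import Pool.Agent.Q279.SN.Stm

/-!
# Project SN: elementary facts on the neighbours in cubic graphs
-/

namespace Pool.Agent.Q279.SN.JBas206

open Finset Pool.Agent.Q279.SN

variable {V : Type} {G : SimpleGraph V}

theorem nbr3_of [Finite V] (h : Cubic G) {v a b c : V} (ha : G.Adj v a) (hb : G.Adj v b)
    (hc : G.Adj v c) (hab : a ≠ b) (hac : a ≠ c) (hbc : b ≠ c) : Nbr3 G v a b c := by
  refine ⟨hab, hac, hbc, fun w => ?_⟩
  have h1 : ({a, b, c} : Set V) ⊆ G.neighborSet v := by
    intro z hz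
    rcases hz with rfl | rfl | rfl
    · exact ha
    · exact hb
    · exact hc
  have h2 : ({a, b, c} : Set V).ncard = 3 := by
    rw [Set.ncard_eq_three]
    exact ⟨a, b, c, hab, hac, hbc, rfl⟩
  have h3 : ({a, b, c} : Set V) = G.neighborSet v :=
    Set.eq_of_subset_of_ncard_le h1 (by rw [h2, h v]) (Set.toFinite _)
  rw [← SimpleGraph.mem_neighborSet, ← h3]
  simp

theorem card12 {L : V → V → Finset ℕ} {v x : V} (hg : GoodAt G L v) (hadj : G.Adj v x) :
    (L v x).card = 1 ∨ (L v x).card = 2 := by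
  obtain ⟨w1, w2, w3, h, h1, h2, h3⟩ := hg
  rcases (h.2.2.2 x).1 hadj with rfl | rfl | rfl
  · exact Or.inr h1
  · exact Or.inl h2
  · exact Or.inl h3

theorem valid_of {L : V → V → Finset ℕ} {v a b c : V} (h : Nbr3 G v a b c)
    (hL : L v a = symmDiff (L v b) (L v c)) (ha : (L v a).Nonempty) (hb : (L v b).Nonempty)
    (hc : (L v c).Nonempty) : ValidAt G L v := by
  have hL2 : L v b = symmDiff (L v a) (L v c) := by
    rw [hL, symmDiff_symmDiff_cancel_right]
  have hL3 : L v c = symmDiff (L v a) (L v b) := by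
    rw [hL, symmDiff_comm (L v b), symmDiff_symmDiff_cancel_right]
  intro w1 w2 w3 hw
  obtain ⟨h12, h13, h23, hN⟩ := hw
  have m1 := (h.2.2.2 w1).1 ((hN w1).2 (Or.inl rfl))
  have m2 := (h.2.2.2 w2).1 ((hN w2).2 (Or.inr (Or.inl rfl)))
  have m3 := (h.2.2.2 w3).1 ((hN w3).2 (Or.inr (Or.inr rfl)))
  rcases m1 with rfl | rfl | rfl <;> rcases m2 with rfl | rfl | rfl <;>
    rcases m3 with rfl | rfl | rfl <;>
    first
    | exact absurd rfl h12
    | exact absurd rfl h13
    | exact absurd rfl h23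
    | exact ⟨ha, hL⟩
    | exact ⟨ha, hL.trans (symmDiff_comm _ _)⟩
    | exact ⟨hb, hL2⟩
    | exact ⟨hb, hL2.trans (symmDiff_comm _ _)⟩
    | exact ⟨hc, hL3⟩
    | exact ⟨hc, hL3.trans (symmDiff_comm _ _)⟩

/-- the sizes of a symmetric difference -/
theorem card_symmDiff (A B : Finset ℕ) :
    (symmDiff A B).card + 2 * (A ∩ B).card = A.card + B.card := by
  have h1 : (symmDiff A B).card = (A \ B).card + (B \ A).card := by
    rw [symmDiff_def, Finset.sup_eq_union, Finset.card_union_of_disjoint]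
    exact disjoint_sdiff_sdiff
  have h2 := Finset.card_sdiff_add_card_inter A B
  have h3 := Finset.card_sdiff_add_card_inter B A
  rw [Finset.inter_comm B A] at h3
  omega

end Pool.Agent.Q279.SN.JBas206
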