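import Pool.Agent.Q279.SN.Stm

/-!
# Project SN, job SN-COL: no proper colouring with three colours
-/

set_option autoImplicit false

namespace Pool.Agent.Q279.SN.JCOL

open Finset Pool.Agent.Q279.SN

/-- The label of a colour. -/
def lb (k : Fin 3) : Finset ℕ := if k = 0 then {0, 1} else if k = 1 then {0} else {1}

theorem lb_valid : ∀ k1 k2 k3 : Fin 3, k1 ≠ k2 → k1 ≠ k3 → k2 ≠ k3 →
    (lb k1).Nonempty ∧ lb k1 = symmDiff (lb k2) (lb k3) := by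
  decide

theorem lb_good : ∀ k1 k2 k3 : Fin 3, k1 ≠ k2 → k1 ≠ k3 → k2 ≠ k3 →
    ((lb k1).card = 2 ∧ (lb k2).card = 1 ∧ (lb k3).card = 1) ∨
    ((lb k2).card = 2 ∧ (lb k1).card = 1 ∧ (lb k3).card = 1) ∨
    ((lb k3).card = 2 ∧ (lb k1).card = 1 ∧ (lb k2).card = 1) := by
  decide

theorem exists_nbr3 {V : Type} {G : SimpleGraph V} (hG : Cubic G) (v : V) :
    ∃ w1 w2 w3, Nbr3 G v w1 w2 w3 := by
  obtain ⟨x, y, z, hxy, hxz, hyz, h⟩ := Set.ncard_eq_three.1 (hG v)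
  refine ⟨x, y, z, hxy, hxz, hyz, fun w => ?_⟩
  rw [← SimpleGraph.mem_neighborSet, h]
  simp

/-- JOB SN-COL. -/
theorem main : Pool.Agent.Q279.SN.NotColourable := by
  classical
  rintro V _ G hG hZ ⟨c, hc⟩
  let L : V → V → Finset ℕ := fun v w => if G.Adj v w then lb (c s(v, w)) else ∅
  have hLa : ∀ v w, G.Adj v w → L v w = lb (c s(v, w)) := fun v w h => if_pos h
  have hcol : ∀ v w w', G.Adj v w → G.Adj v w' → w ≠ w' → c s(v, w) ≠ c s(v, w') := by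
    intro v w w' h h' hne
    refine hc _ h _ h' ?_ ⟨v, by simp, by simp⟩
    intro he
    rw [Sym2.eq_iff] at he
    rcases he with ⟨_, h2⟩ | ⟨h1, h2⟩
    · exact hne h2
    · exact hne (h2.trans h1)
  have hfull : FullLab G L := by
    refine ⟨fun v w => ?_, fun v w1 w2 w3 h => ?_⟩
    · simp only [L, G.adj_comm v w, Sym2.eq_swap (a := v) (b := w)]
    · obtain ⟨h12, h13, h23, hN⟩ := h
      have a1 := (hN w1).2 (Or.inl rfl)
      have a2 := (hN w2).2 (Or.inr (Or.inl rfl))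
      have a3 := (hN w3).2 (Or.inr (Or.inr rfl))
      rw [hLa _ _ a1, hLa _ _ a2, hLa _ _ a3]
      exact lb_valid _ _ _ (hcol _ _ _ a1 a2 h12) (hcol _ _ _ a1 a3 h13) (hcol _ _ _ a2 a3 h23)
  obtain ⟨v, hv⟩ := hZ L hfull
  apply hv
  obtain ⟨w1, w2, w3, h12, h13, h23, hN⟩ := exists_nbr3 hG v
  have a1 := (hN w1).2 (Or.inl rfl)
  have a2 := (hN w2).2 (Or.inr (Or.inl rfl))
  have a3 := (hN w3).2 (Or.inr (Or.inr rfl))
  have hg := lb_good _ _ _ (hcol _ _ _ a1 a2 h12) (hcol _ _ _ a1 a3 h13) (hcol _ _ _ a2 a3 h23)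
  rw [← hLa _ _ a1, ← hLa _ _ a2, ← hLa _ _ a3] at hg
  rcases hg with hg | hg | hg
  · exact ⟨w1, w2, w3, ⟨h12, h13, h23, hN⟩, hg⟩
  · exact ⟨w2, w1, w3, ⟨h12.symm, h23, h13, fun w => by rw [hN]; tauto⟩, hg⟩
  · exact ⟨w3, w1, w2, ⟨h13.symm, h23.symm, h12, fun w => by rw [hN]; tauto⟩, hg⟩

end Pool.Agent.Q279.SN.JCOL
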