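import Pool.Agent.Q222.SN.Base

/-! Project SN, job CUB (helper222): the next piece is cubic. -/

set_option autoImplicit false

namespace Pool.Agent.Q279.SN.JCUB

open Pool.Agent.Q222.SN

theorem main : NextCubic := by
  intro P hc hn
  apply cubic_of_nbr3
  intro v
  show ∃ w1 w2 w3, Nbr3 (comp (three P)) v w1 w2 w3
  cases v with
  | h i v hx hy =>
    obtain ⟨w1, w2, w3, h⟩ := nbr3_of_cubic hc v
    exact ⟨_, _, _, nbr_h hc hn h⟩
  | a i => exact ⟨_, _, _, nbr_a i⟩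
  | b i => exact ⟨_, _, _, nbr_b i⟩
  | c i => exact ⟨_, _, _, nbr_c i⟩
  | u => exact ⟨_, _, _, nbr_u⟩

end Pool.Agent.Q279.SN.JCUB
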