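import Pool.Agent.Q279.SN.Stm

/-!
# Project SN, job CYC
-/

namespace Pool.Agent.Q279.SN.JCYC

open Finset Pool.Agent.Q279.SN

theorem acyc {V : Type} [Finite V] (G : SimpleGraph V) (X : Set V) (h : X.ncard ≤ 1) :
    (G.induce X).IsAcyclic := by
  have hs : X.Subsingleton := (Set.ncard_le_one (Set.toFinite X)).1 h
  intro v p hp
  have h1 := hp.three_le_length
  have h2 : p.snd = v := Subtype.ext (hs p.snd.2 v.2)
  have h3 : ¬ p.Nil := hp.not_nil
  exact (p.adj_snd h3).ne h2.symm

theorem main : Pool.Agent.Q279.SN.CycOfP4 := by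
  intro V _ G hP X h1 h2
  by_contra hcon
  rcases hP X (by omega) with h | h
  · exact h1 (acyc G X h)
  · exact h2 (acyc G Xᶜ h)

end Pool.Agent.Q279.SN.JCYC
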