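import Pool.Agent.Q279.SN.Stm

/-!
# Project SN, job SN-EG: the girth is at least five
-/

set_option autoImplicit false

namespace Pool.Agent.Q279.SN.JEG

open Finset Pool.Agent.Q279.SN

/-- JOB SN-EG. -/
theorem main : Pool.Agent.Q279.SN.EgirthOfNoShort := by
  intro V G hn
  rw [SimpleGraph.le_egirth]
  intro a w hw
  by_contra hlt
  have h3 := hw.three_le_length
  have hlt' : w.length < 5 := by
    rw [not_le] at hlt
    exact_mod_cast hlt
  have hnd := hw.support_nodup
  cases w with
  | nil => simp at h3
  | @cons _ b _ h1 w1 =>
    cases w1 with
    | nil => simp at h3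
    | @cons _ c _ h2 w2 =>
      cases w2 with
      | nil => simp at h3
      | @cons _ d _ h4 w3 =>
        cases w3 with
        | nil => exact hn.1 a b c h1 h2 h4.symm
        | @cons _ e _ h5 w4 =>
          cases w4 with
          | nil =>
            simp only [SimpleGraph.Walk.support_cons, SimpleGraph.Walk.support_nil,
              List.tail_cons, List.nodup_cons, List.mem_cons, List.not_mem_nil,
              or_false, not_or] at hnd
            refine hn.2 a b c d ?_ ?_ h1 h2 h4 h5
            · exact fun h => hnd.2.1.2 h.symm
            · exact hnd.1.2.1
          | cons _ _ =>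
            simp only [SimpleGraph.Walk.length_cons] at hlt'
            omega

end Pool.Agent.Q279.SN.JEG
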