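import Pool.Agent.Q279.SN.Stm

/-!
# Job SN-EXC: covers by at most four perfect matchings
-/

namespace Pool.Agent.Q279.SN.JEXC

open Finset

/-- The sizes of the labels are `2, 1, 1` in some order. -/
def Pat (a b c : ℕ) : Prop :=
  (a = 2 ∧ b = 1 ∧ c = 1) ∨ (a = 1 ∧ b = 2 ∧ c = 1) ∨ (a = 1 ∧ b = 1 ∧ c = 2)

instance (a b c : ℕ) : Decidable (Pat a b c) := by unfold Pat; infer_instance

/-- What we need from the labels. -/
def Nice (k : ℕ) (f : Finset (Fin k) → Finset ℕ) : Prop :=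
  ∀ T1 T2 T3 : Finset (Fin k), T1.Nonempty → T2.Nonempty → T3.Nonempty → Disjoint T1 T2 →
    Disjoint T1 T3 → Disjoint T2 T3 → T1 ∪ T2 ∪ T3 = univ →
    (f T1).Nonempty ∧ f T1 = symmDiff (f T2) (f T3) ∧ Pat (f T1).card (f T2).card (f T3).card

theorem lam (k : ℕ) (hk : k ≤ 4) : ∃ f, Nice k f := by
  interval_cases k
  · exact ⟨fun _ => ∅, by unfold Nice; decide⟩
  · exact ⟨fun _ => ∅, by unfold Nice; decide⟩
  · exact ⟨fun _ => ∅, by unfold Nice; decide⟩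
  · exact ⟨fun T => if T = {0} then {1, 2} else if T = {1} then {1} else {2}, by
      unfold Nice; decide +kernel⟩
  · exact ⟨fun T => (if T.card = 2 then Tᶜ else T).image Fin.val, by
      unfold Nice; decide +kernel⟩

theorem main : ExcOfZEF := by
  classical
  intro V _ G hC hZ k S hS
  by_contra hk
  push Not at hk
  obtain ⟨f, hf⟩ := lam k (by omega)
  obtain ⟨hcard, hPM, hcov⟩ := hS
  let g : S ≃ Fin k := S.equivFinOfCardEq hcard
  let T : Sym2 V → Finset (Fin k) := fun e => univ.filter (fun j => e ∈ (g.symm j).1)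
  have hT : ∀ e j, j ∈ T e ↔ e ∈ (g.symm j).1 := by
    intro e j
    simp [T]
  have key : ∀ v w1 w2 w3, Nbr3 G v w1 w2 w3 →
      (f (T s(v, w1))).Nonempty ∧
      f (T s(v, w1)) = symmDiff (f (T s(v, w2))) (f (T s(v, w3))) ∧
      Pat (f (T s(v, w1))).card (f (T s(v, w2))).card (f (T s(v, w3))).card := by
    intro v w1 w2 w3 ⟨h12, h13, h23, hadj⟩
    have ne : ∀ w, G.Adj v w → (T s(v, w)).Nonempty := by
      intro w hw
      obtain ⟨M, hM, he⟩ := hcov s(v, w) hw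
      refine ⟨g ⟨M, hM⟩, ?_⟩
      rw [hT]
      simpa using he
    have dj : ∀ a b, a ≠ b → Disjoint (T s(v, a)) (T s(v, b)) := by
      intro a b hab
      rw [Finset.disjoint_left]
      intro j ha hb
      rw [hT] at ha hb
      obtain ⟨e, _, hu⟩ := (hPM _ (g.symm j).2).2 v
      have e1 := hu s(v, a) ⟨ha, by simp⟩
      have e2 := hu s(v, b) ⟨hb, by simp⟩
      have e3 := e1.trans e2.symm
      rw [Sym2.eq_iff] at e3
      rcases e3 with ⟨_, h⟩ | ⟨h, h'⟩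
      · exact hab h
      · exact hab (h'.trans h)
    apply hf _ _ _ (ne w1 ((hadj w1).mpr (Or.inl rfl))) (ne w2 ((hadj w2).mpr (Or.inr (Or.inl rfl))))
      (ne w3 ((hadj w3).mpr (Or.inr (Or.inr rfl)))) (dj _ _ h12) (dj _ _ h13) (dj _ _ h23)
    ext j
    simp only [Finset.mem_union, Finset.mem_univ, iff_true]
    obtain ⟨e, ⟨he, hv⟩, _⟩ := (hPM _ (g.symm j).2).2 v
    obtain ⟨w, rfl⟩ := Sym2.mem_iff_exists.mp hv
    have hw : G.Adj v w := (hPM _ (g.symm j).2).1 he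
    rcases (hadj w).mp hw with rfl | rfl | rfl
    · exact Or.inl (Or.inl ((hT _ _).mpr he))
    · exact Or.inl (Or.inr ((hT _ _).mpr he))
    · exact Or.inr ((hT _ _).mpr he)
  obtain ⟨v, hv⟩ := hZ (fun v w => f (T s(v, w))) ⟨fun v w => by
      show f (T s(v, w)) = f (T s(w, v))
      rw [Sym2.eq_swap], fun v w1 w2 w3 h =>
    ⟨(key v w1 w2 w3 h).1, (key v w1 w2 w3 h).2.1⟩⟩
  apply hv
  obtain ⟨w1, w2, w3, h12, h13, h23, hN⟩ := Set.ncard_eq_three.mp (hC v)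
  have hadj : ∀ w, G.Adj v w ↔ (w = w1 ∨ w = w2 ∨ w = w3) := by
    intro w
    rw [← SimpleGraph.mem_neighborSet, hN]
    simp
  obtain ⟨_, _, hP⟩ := key v w1 w2 w3 ⟨h12, h13, h23, hadj⟩
  rcases hP with ⟨a1, a2, a3⟩ | ⟨a1, a2, a3⟩ | ⟨a1, a2, a3⟩
  · exact ⟨w1, w2, w3, ⟨h12, h13, h23, hadj⟩, a1, a2, a3⟩
  · exact ⟨w2, w1, w3, ⟨h12.symm, h23, h13, fun w => by rw [hadj]; tauto⟩, a2, a1, a3⟩
  · exact ⟨w3, w1, w2, ⟨h13.symm, h23.symm, h12, fun w => by rw [hadj]; tauto⟩, a3, a1, a2⟩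

end Pool.Agent.Q279.SN.JEXC
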