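import Pool.Agent.Q279.SN.J.Bas206

/-!
# Project SN, job FNC
-/

namespace Pool.Agent.Q279.SN.JFNC

open Finset Pool.Agent.Q279.SN Pool.Agent.Q279.SN.JBas206

theorem main : Pool.Agent.Q279.SN.JForcedNC := by
  intro _ P _ _ hF L hL hg
  obtain ⟨h1, h2, h3, h4⟩ := hF L hL hg
  refine ⟨?_, fun _ => Or.inr ⟨h3, h4⟩⟩
  have := card_symmDiff (L P.x P.x0) (L P.x P.x1)
  omega

end Pool.Agent.Q279.SN.JFNC
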