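import Pool.Agent.Q279.SN.Stm

/-!
# Job SN-FORCED: the next piece has forced sizes
-/

namespace Pool.Agent.Q279.SN.JFORCED

open Finset

section gen
variable {V : Type} {G : SimpleGraph V} {L : V → V → Finset ℕ} {v w1 w2 w3 : V}

theorem nbr3_perm1 (h : Nbr3 G v w1 w2 w3) : Nbr3 G v w2 w1 w3 :=
  ⟨h.1.symm, h.2.2.1, h.2.1, fun w => by rw [h.2.2.2]; tauto⟩

theorem nbr3_perm2 (h : Nbr3 G v w1 w2 w3) : Nbr3 G v w3 w1 w2 :=
  ⟨h.2.1.symm, h.2.2.1.symm, h.1, fun w => by rw [h.2.2.2]; tauto⟩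

theorem tri_of (h : Nbr3 G v w1 w2 w3) (hV : ValidAt G L v) (hG : GoodAt G L v) :
    Tri (L v w1) (L v w2) (L v w3) := by
  refine ⟨(hV w1 w2 w3 h).2, ?_⟩
  obtain ⟨z1, z2, z3, hz, c1, c2, c3⟩ := hG
  have e1 : z1 = w1 ∨ z1 = w2 ∨ z1 = w3 := (h.2.2.2 z1).mp ((hz.2.2.2 z1).mpr (Or.inl rfl))
  have e2 : z2 = w1 ∨ z2 = w2 ∨ z2 = w3 :=
    (h.2.2.2 z2).mp ((hz.2.2.2 z2).mpr (Or.inr (Or.inl rfl)))
  have e3 : z3 = w1 ∨ z3 = w2 ∨ z3 = w3 :=
    (h.2.2.2 z3).mp ((hz.2.2.2 z3).mpr (Or.inr (Or.inr rfl)))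
  obtain ⟨h12, h13, h23, _⟩ := h
  obtain ⟨d12, d13, d23, _⟩ := hz
  rcases e1 with rfl | rfl | rfl <;> rcases e2 with rfl | rfl | rfl <;>
    rcases e3 with rfl | rfl | rfl <;>
    (first
      | exact absurd rfl d12
      | exact absurd rfl d13
      | exact absurd rfl d23
      | tauto)

theorem card_of_good (hG : GoodAt G L v) {w : V} (hw : G.Adj v w) :
    (L v w).card = 1 ∨ (L v w).card = 2 := by
  obtain ⟨z1, z2, z3, hz, c1, c2, c3⟩ := hG
  rcases (hz.2.2.2 w).mp hw with rfl | rfl | rfl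
  · exact Or.inr c1
  · exact Or.inl c2
  · exact Or.inl c3

end gen

section comp
variable (P : Piece)

theorem nbr_a (i : Fin 3) : Nbr3 (comp (three P)) (.a i) (.c i)
    (.h (i + 1) P.x0 P.hx0.ne' P.hx0y) (.h (i - 1) P.y0 P.hy0x P.hy0.ne') := by
  have hi : ¬ (i + 1 = i - 1) := by fin_cases i <;> decide
  refine ⟨by simp, by simp, ?_, ?_⟩
  · intro h
    simp only [CV.h.injEq] at h
    exact hi h.1
  · intro w
    constructor
    · intro h
      rw [comp, SimpleGraph.fromRel_adj] at h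
      rcases h.2 with h | h
      · cases h with
        | ax => exact Or.inr (Or.inl rfl)
        | ay => exact Or.inr (Or.inr rfl)
      · cases h with
        | ca => exact Or.inl rfl
    · rintro (rfl | rfl | rfl)
      · exact (comp_adj_of (CE.ca i) (by simp)).symm
      · exact comp_adj_of (CE.ax i) (by simp)
      · exact comp_adj_of (CE.ay i) (by simp)

theorem nbr_b (i : Fin 3) : Nbr3 (comp (three P)) (.b i) (.c i)
    (.h (i + 1) P.x1 P.hx1.ne' P.hx1y) (.h (i - 1) P.y1 P.hy1x P.hy1.ne') := by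
  have hi : ¬ (i + 1 = i - 1) := by fin_cases i <;> decide
  refine ⟨by simp, by simp, ?_, ?_⟩
  · intro h
    simp only [CV.h.injEq] at h
    exact hi h.1
  · intro w
    constructor
    · intro h
      rw [comp, SimpleGraph.fromRel_adj] at h
      rcases h.2 with h | h
      · cases h with
        | bx => exact Or.inr (Or.inl rfl)
        | by1 => exact Or.inr (Or.inr rfl)
      · cases h with
        | cb => exact Or.inl rfl
    · rintro (rfl | rfl | rfl)
      · exact (comp_adj_of (CE.cb i) (by simp)).symm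
      · exact comp_adj_of (CE.bx i) (by simp)
      · exact comp_adj_of (CE.by1 i) (by simp)

theorem nbr_c (i : Fin 3) : Nbr3 (comp (three P)) (.c i) (.a i) (.b i) .u := by
  refine ⟨by simp, by simp, by simp, ?_⟩
  intro w
  constructor
  · intro h
    rw [comp, SimpleGraph.fromRel_adj] at h
    rcases h.2 with h | h
    · cases h with
      | ca => exact Or.inl rfl
      | cb => exact Or.inr (Or.inl rfl)
      | cu => exact Or.inr (Or.inr rfl)
    · cases h
  · rintro (rfl | rfl | rfl)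
    · exact comp_adj_of (CE.ca i) (by simp)
    · exact comp_adj_of (CE.cb i) (by simp)
    · exact comp_adj_of (CE.cu i) (by simp)

theorem nbr_u : Nbr3 (comp (three P)) .u (.c 0) (.c 1) (.c 2) := by
  refine ⟨by simp, by simp, by simp, ?_⟩
  intro w
  constructor
  · intro h
    rw [comp, SimpleGraph.fromRel_adj] at h
    rcases h.2 with h | h
    · cases h
    · cases h with
      | cu i => fin_cases i <;> simp
  · rintro (rfl | rfl | rfl)
    · exact (comp_adj_of (CE.cu 0) (by simp)).symm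
    · exact (comp_adj_of (CE.cu 1) (by simp)).symm
    · exact (comp_adj_of (CE.cu 2) (by simp)).symm

end comp

theorem main : JNextForced := by
  intro hHand hRes hQ P hC hN hNC L hL hgood
  change CV (three P) → CV (three P) → Finset ℕ at L
  have hsym : ∀ v w : CV (three P), L v w = L w v := hL.1
  have hval : ∀ v : CV (three P), v ≠ .c 0 → v ≠ .a 0 → ValidAt (comp (three P)) L v := hL.2
  have hgd : ∀ v : CV (three P), v ≠ .c 0 → v ≠ .a 0 → GoodAt (comp (three P)) L v := hgood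
  have tri : ∀ v w1 w2 w3 : CV (three P), v ≠ .c 0 → v ≠ .a 0 →
      Nbr3 (comp (three P)) v w1 w2 w3 → Tri (L v w1) (L v w2) (L v w3) :=
    fun v w1 w2 w3 h0 h1 h => tri_of h (hval v h0 h1) (hgd v h0 h1)
  choose M hM using hRes P hC hN L hL
  have hMP : ∀ i, PoleLab P (M i) := fun i => (hM i).1
  have hMG : ∀ i v, v ≠ P.x → v ≠ P.y → GoodAt P.G (M i) v := by
    intro i v hx hy
    exact ((hM i).2.1 v hx hy).mpr (hgd _ (by simp) (by simp))
  have m1 : ∀ i, M i P.x P.x0 = L (.a (i - 1)) (.h i P.x0 P.hx0.ne' P.hx0y) :=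
    fun i => (hM i).2.2.1
  have m2 : ∀ i, M i P.x P.x1 = L (.b (i - 1)) (.h i P.x1 P.hx1.ne' P.hx1y) :=
    fun i => (hM i).2.2.2.1
  have m3 : ∀ i, M i P.y P.y0 = L (.a (i + 1)) (.h i P.y0 P.hy0x P.hy0.ne') :=
    fun i => (hM i).2.2.2.2.1
  have m4 : ∀ i, M i P.y P.y1 = L (.b (i + 1)) (.h i P.y1 P.hy1x P.hy1.ne') :=
    fun i => (hM i).2.2.2.2.2
  have key := hQ (fun i => ![M i P.x P.x0, M i P.x P.x1]) (fun i => ![M i P.y P.y0, M i P.y P.y1])
    (fun i => L (.c i) (.a i)) (fun i => L (.c i) (.b i)) (fun i => L (.c i) .u) ?_ ?_ ?_ ?_ ?_ ?_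
    ?_ ?_ ?_ ?_ ?_
  · obtain ⟨k1, k2, k3, k4⟩ := key
    refine ⟨k2, k1, ?_, ?_⟩
    · have := m1 1
      rw [sub_self] at this
      show (L (.a 0) (.h 1 P.x0 P.hx0.ne' P.hx0y)).card = 2
      rw [← this]
      exact k3
    · have := m3 2
      have e : (2 : Fin 3) + 1 = 0 := rfl
      rw [e] at this
      show (L (.a 0) (.h 2 P.y0 P.hy0x P.hy0.ne')).card = 2
      rw [← this]
      exact k4
  · intro i
    have := hNC (M i) (hMP i) (hMG i)
    exact ⟨hHand P hC hN (M i) (hMP i), this.1, this.2⟩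
  · intro i j
    have h0 := card_of_good (hMG i P.x0 P.hx0.ne' P.hx0y) P.hx0.symm
    have h1 := card_of_good (hMG i P.x1 P.hx1.ne' P.hx1y) P.hx1.symm
    rw [(hMP i).1] at h0 h1
    fin_cases j
    · exact h0
    · exact h1
  · intro i j
    have h0 := card_of_good (hMG i P.y0 P.hy0x P.hy0.ne') P.hy0.symm
    have h1 := card_of_good (hMG i P.y1 P.hy1x P.hy1.ne') P.hy1.symm
    rw [(hMP i).1] at h0 h1
    fin_cases j
    · exact h0
    · exact h1
  · have h := tri _ _ _ _ (by simp) (by simp) (nbr_a P 1)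
    rw [hsym (.a 1) (.c 1)] at h
    have h2 := m1 2
    have h3 := m3 0
    show Tri (L (.c 1) (.a 1)) (M 2 P.x P.x0) (M 0 P.y P.y0)
    rw [h2, h3]
    exact h
  · have h := tri _ _ _ _ (by simp) (by simp) (nbr_a P 2)
    rw [hsym (.a 2) (.c 2)] at h
    have h2 := m1 0
    have h3 := m3 1
    show Tri (L (.c 2) (.a 2)) (M 0 P.x P.x0) (M 1 P.y P.y0)
    rw [h2, h3]
    exact h
  · have h := tri _ _ _ _ (by simp) (by simp) (nbr_b P 0)
    rw [hsym (.b 0) (.c 0)] at h
    have h2 := m2 1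
    have h3 := m4 2
    show Tri (L (.c 0) (.b 0)) (M 1 P.x P.x1) (M 2 P.y P.y1)
    rw [h2, h3]
    exact h
  · have h := tri _ _ _ _ (by simp) (by simp) (nbr_b P 1)
    rw [hsym (.b 1) (.c 1)] at h
    have h2 := m2 2
    have h3 := m4 0
    show Tri (L (.c 1) (.b 1)) (M 2 P.x P.x1) (M 0 P.y P.y1)
    rw [h2, h3]
    exact h
  · have h := tri _ _ _ _ (by simp) (by simp) (nbr_b P 2)
    rw [hsym (.b 2) (.c 2)] at h
    have h2 := m2 0
    have h3 := m4 1
    show Tri (L (.c 2) (.b 2)) (M 0 P.x P.x1) (M 1 P.y P.y1)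
    rw [h2, h3]
    exact h
  · exact tri _ _ _ _ (by simp) (by simp) (nbr_c P 1)
  · exact tri _ _ _ _ (by simp) (by simp) (nbr_c P 2)
  · have h := tri _ _ _ _ (by simp) (by simp) (nbr_u P)
    rw [hsym .u (.c 0), hsym .u (.c 1), hsym .u (.c 2)] at h
    exact h

end Pool.Agent.Q279.SN.JFORCED
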