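import Pool.Agent.Q279.SN.J.Bas206

/-!
# Project SN, jobs FNC and FZ
-/

namespace Pool.Agent.Q279.SN.JFZ

open Finset Pool.Agent.Q279.SN Pool.Agent.Q279.SN.JBas206

theorem main : Pool.Agent.Q279.SN.ForcedZEF := by
  intro P hC hF L hL
  by_contra hcon
  push Not at hcon
  obtain ⟨h1, h2, h3, h4⟩ := hF L ⟨hL.1, fun v _ _ => hL.2 v⟩ fun v _ _ => hcon v
  have hN : Nbr3 P.G P.y P.x P.y0 P.y1 := nbr3_of hC P.hxy.symm P.hy0 P.hy1 P.hy0x.symm
    P.hy1x.symm P.hy01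
  obtain ⟨w1, w2, w3, hw, c1, c2, c3⟩ := hcon P.y
  have m0 := (hw.2.2.2 P.y0).1 P.hy0
  have m1 := (hw.2.2.2 P.y1).1 P.hy1
  rcases m0 with e0 | e0 | e0
  · rcases m1 with e1 | e1 | e1
    · exact P.hy01 (e0.trans e1.symm)
    · rw [← e1] at c2
      omega
    · rw [← e1] at c3
      omega
  · rw [← e0] at c2
    omega
  · rw [← e0] at c3
    omega

end Pool.Agent.Q279.SN.JFZ
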