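import Pool.Agent.Q222.SN.Base

/-! Project SN, job GIR (helper222): the next piece has no triangle and no 4-cycle. -/

set_option autoImplicit false

namespace Pool.Agent.Q279.SN.JGIR

open Pool.Agent.Q222.SN

variable {P : Piece}

theorem f1 : ∀ i j : Fin 3, i = j + 1 → i = j - 1 → False := by decide

/-- a new vertex `a j` has at most one neighbour in each copy -/
theorem aa {i j : Fin 3} {v w : P.V} (h1 : (i = j + 1 ∧ v = P.x0) ∨ (i = j - 1 ∧ v = P.y0))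
    (h2 : (i = j + 1 ∧ w = P.x0) ∨ (i = j - 1 ∧ w = P.y0)) : v = w := by
  rcases h1 with ⟨h1, rfl⟩ | ⟨h1, rfl⟩ <;> rcases h2 with ⟨h2, rfl⟩ | ⟨h2, rfl⟩
  · rfl
  · exact absurd h2 (f1 _ _ h1)
  · exact absurd h1 (f1 _ _ h2)
  · rfl

theorem bb {i j : Fin 3} {v w : P.V} (h1 : (i = j + 1 ∧ v = P.x1) ∨ (i = j - 1 ∧ v = P.y1))
    (h2 : (i = j + 1 ∧ w = P.x1) ∨ (i = j - 1 ∧ w = P.y1)) : v = w := by
  rcases h1 with ⟨h1, rfl⟩ | ⟨h1, rfl⟩ <;> rcases h2 with ⟨h2, rfl⟩ | ⟨h2, rfl⟩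
  · rfl
  · exact absurd h2 (f1 _ _ h1)
  · exact absurd h1 (f1 _ _ h2)
  · rfl

/-- a vertex of a copy has at most one new neighbour -/
theorem a2 (hn : NoShort P.G) {i j k : Fin 3} {v : P.V}
    (h1 : (i = j + 1 ∧ v = P.x0) ∨ (i = j - 1 ∧ v = P.y0))
    (h2 : (i = k + 1 ∧ v = P.x0) ∨ (i = k - 1 ∧ v = P.y0)) : j = k := by
  rcases h1 with ⟨h1, h1'⟩ | ⟨h1, h1'⟩ <;> rcases h2 with ⟨h2, h2'⟩ | ⟨h2, h2'⟩
  · exact add_right_cancel (h1.symm.trans h2)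
  · exact absurd (h1'.symm.trans h2') (x0y0 hn)
  · exact absurd (h2'.symm.trans h1') (x0y0 hn)
  · exact sub_left_injective (h1.symm.trans h2)

theorem b2 (hn : NoShort P.G) {i j k : Fin 3} {v : P.V}
    (h1 : (i = j + 1 ∧ v = P.x1) ∨ (i = j - 1 ∧ v = P.y1))
    (h2 : (i = k + 1 ∧ v = P.x1) ∨ (i = k - 1 ∧ v = P.y1)) : j = k := by
  rcases h1 with ⟨h1, h1'⟩ | ⟨h1, h1'⟩ <;> rcases h2 with ⟨h2, h2'⟩ | ⟨h2, h2'⟩
  · exact add_right_cancel (h1.symm.trans h2)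
  · exact absurd (h1'.symm.trans h2') (x1y1 hn)
  · exact absurd (h2'.symm.trans h1') (x1y1 hn)
  · exact sub_left_injective (h1.symm.trans h2)

theorem ab (hn : NoShort P.G) {i j k : Fin 3} {v : P.V}
    (h1 : (i = j + 1 ∧ v = P.x0) ∨ (i = j - 1 ∧ v = P.y0))
    (h2 : (i = k + 1 ∧ v = P.x1) ∨ (i = k - 1 ∧ v = P.y1)) : False := by
  rcases h1 with ⟨h1, h1'⟩ | ⟨h1, h1'⟩ <;> rcases h2 with ⟨h2, h2'⟩ | ⟨h2, h2'⟩
  · exact P.hx01 (h1'.symm.trans h2')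
  · exact x0y1 hn (h1'.symm.trans h2')
  · exact x1y0 hn (h2'.symm.trans h1')
  · exact P.hy01 (h1'.symm.trans h2')

theorem main : NextNoShort := by
  intro P hc hn
  have hsy : ∀ v w, P.G.Adj v w → P.G.Adj w v := fun _ _ h => h.symm
  have hir : ∀ v, ¬ P.G.Adj v v := fun v => P.G.irrefl
  have ht := hn.1
  have hq := hn.2
  have g1 : ∀ (i j : Fin 3) (v w : P.V), ((i = j + 1 ∧ v = P.x0) ∨ (i = j - 1 ∧ v = P.y0)) →
    ((i = j + 1 ∧ w = P.x0) ∨ (i = j - 1 ∧ w = P.y0)) → v = w := fun i j v w => aa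
  have g2 : ∀ (i j : Fin 3) (v w : P.V), ((i = j + 1 ∧ v = P.x1) ∨ (i = j - 1 ∧ v = P.y1)) →
    ((i = j + 1 ∧ w = P.x1) ∨ (i = j - 1 ∧ w = P.y1)) → v = w := fun i j v w => bb
  have g3 : ∀ (i j k : Fin 3) (v : P.V), ((i = j + 1 ∧ v = P.x0) ∨ (i = j - 1 ∧ v = P.y0)) →
    ((i = k + 1 ∧ v = P.x0) ∨ (i = k - 1 ∧ v = P.y0)) → j = k := fun i j k v => a2 hn
  have g4 : ∀ (i j k : Fin 3) (v : P.V), ((i = j + 1 ∧ v = P.x1) ∨ (i = j - 1 ∧ v = P.y1)) →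
    ((i = k + 1 ∧ v = P.x1) ∨ (i = k - 1 ∧ v = P.y1)) → j = k := fun i j k v => b2 hn
  have g5 : ∀ (i j k : Fin 3) (v : P.V), ((i = j + 1 ∧ v = P.x0) ∨ (i = j - 1 ∧ v = P.y0)) →
    ((i = k + 1 ∧ v = P.x1) ∨ (i = k - 1 ∧ v = P.y1)) → False := fun i j k v => ab hn
  constructor
  · intro p q r h1 h2 h3
    change (comp (three P)).Adj p q at h1
    change (comp (three P)).Adj q r at h2
    change (comp (three P)).Adj p r at h3
    cases p <;> cases q <;>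
      simp only [adj_hh, adj_ha, adj_hb, adj_hc, adj_hu, adj_ah, adj_aa, adj_ab, adj_ac, adj_au,
        adj_bh, adj_ba, adj_bb, adj_bc, adj_bu, adj_ch, adj_ca, adj_cb, adj_cc, adj_cu, adj_uh,
        adj_ua, adj_ub, adj_uc, adj_uu] at h1 <;>
      cases r <;>
      simp only [adj_hh, adj_ha, adj_hb, adj_hc, adj_hu, adj_ah, adj_aa, adj_ab, adj_ac, adj_au,
        adj_bh, adj_ba, adj_bb, adj_bc, adj_bu, adj_ch, adj_ca, adj_cb, adj_cc, adj_cu, adj_uh,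
        adj_ua, adj_ub, adj_uc, adj_uu] at h2 h3
    all_goals first
      | (obtain ⟨rfl, h1⟩ := h1; obtain ⟨rfl, h2⟩ := h2; exact ht _ _ _ h1 h2 h3.2; done)
      | (obtain ⟨rfl, h1⟩ := h1; exact hir _ (g1 _ _ _ _ h2 h3 ▸ h1); done)
      | (obtain ⟨rfl, h1⟩ := h1; exact hir _ (g2 _ _ _ _ h2 h3 ▸ h1); done)
      | (obtain ⟨rfl, h3⟩ := h3; exact hir _ (g1 _ _ _ _ h1 h2 ▸ h3); done)
      | (obtain ⟨rfl, h3⟩ := h3; exact hir _ (g2 _ _ _ _ h1 h2 ▸ h3); done)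
      | (obtain ⟨rfl, h2⟩ := h2; exact hir _ (g1 _ _ _ _ h1 h3 ▸ h2); done)
      | (obtain ⟨rfl, h2⟩ := h2; exact hir _ (g2 _ _ _ _ h1 h3 ▸ h2); done)
  · intro p q r s hpr hqs h1 h2 h3 h4
    change (comp (three P)).Adj p q at h1
    change (comp (three P)).Adj q r at h2
    change (comp (three P)).Adj r s at h3
    change (comp (three P)).Adj s p at h4
    cases p <;> cases q <;>
      simp only [adj_hh, adj_ha, adj_hb, adj_hc, adj_hu, adj_ah, adj_aa, adj_ab, adj_ac, adj_au,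
        adj_bh, adj_ba, adj_bb, adj_bc, adj_bu, adj_ch, adj_ca, adj_cb, adj_cc, adj_cu, adj_uh,
        adj_ua, adj_ub, adj_uc, adj_uu] at h1 <;>
      cases r <;>
      simp only [adj_hh, adj_ha, adj_hb, adj_hc, adj_hu, adj_ah, adj_aa, adj_ab, adj_ac, adj_au,
        adj_bh, adj_ba, adj_bb, adj_bc, adj_bu, adj_ch, adj_ca, adj_cb, adj_cc, adj_cu, adj_uh,
        adj_ua, adj_ub, adj_uc, adj_uu] at h2 <;>
      cases s <;>
      simp only [adj_hh, adj_ha, adj_hb, adj_hc, adj_hu, adj_ah, adj_aa, adj_ab, adj_ac, adj_au,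
        adj_bh, adj_ba, adj_bb, adj_bc, adj_bu, adj_ch, adj_ca, adj_cb, adj_cc, adj_cu, adj_uh,
        adj_ua, adj_ub, adj_uc, adj_uu] at h3 h4
    all_goals first
      | exact g5 _ _ _ _ h1 h2
      | exact g5 _ _ _ _ h2 h1
      | exact g5 _ _ _ _ h1 h4
      | exact g5 _ _ _ _ h4 h1
      | exact g5 _ _ _ _ h2 h3
      | exact g5 _ _ _ _ h3 h2
      | exact g5 _ _ _ _ h3 h4
      | exact g5 _ _ _ _ h4 h3
      | (obtain ⟨rfl, h1⟩ := h1; obtain ⟨rfl, h2⟩ := h2; obtain ⟨rfl, h3⟩ := h3; exact hq _ _ _ _ (fun e => hpr (by subst e; rfl)) (fun e => hqs (by subst e; rfl)) h1 h2 h3 h4.2; done)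
      | (obtain ⟨rfl, h1⟩ := h1; obtain ⟨rfl, h2⟩ := h2; apply hpr; cases g1 _ _ _ _ h3 h4; rfl; done)
      | (obtain ⟨rfl, h1⟩ := h1; obtain ⟨rfl, h2⟩ := h2; apply hpr; cases g2 _ _ _ _ h3 h4; rfl; done)
      | (obtain ⟨rfl, h1⟩ := h1; obtain ⟨rfl, h4⟩ := h4; apply hqs; cases g1 _ _ _ _ h2 h3; rfl; done)
      | (obtain ⟨rfl, h1⟩ := h1; obtain ⟨rfl, h4⟩ := h4; apply hqs; cases g2 _ _ _ _ h2 h3; rfl; done)
      | (obtain ⟨rfl, h3⟩ := h3; obtain ⟨rfl, h4⟩ := h4; apply hpr; cases g1 _ _ _ _ h1 h2; rfl; done)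
      | (obtain ⟨rfl, h3⟩ := h3; obtain ⟨rfl, h4⟩ := h4; apply hpr; cases g2 _ _ _ _ h1 h2; rfl; done)
      | (obtain ⟨rfl, h2⟩ := h2; obtain ⟨rfl, h3⟩ := h3; apply hqs; cases g1 _ _ _ _ h1 h4; rfl; done)
      | (obtain ⟨rfl, h2⟩ := h2; obtain ⟨rfl, h3⟩ := h3; apply hqs; cases g2 _ _ _ _ h1 h4; rfl; done)
      | (apply hqs; cases g3 _ _ _ _ h1 h4; rfl; done)
      | (apply hqs; cases g4 _ _ _ _ h1 h4; rfl; done)
      | (apply hpr; cases g3 _ _ _ _ h1 h2; rfl; done)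
      | (apply hpr; cases g4 _ _ _ _ h1 h2; rfl; done)
      | exact hqs rfl
      | exact hpr rfl
      | (subst h1; subst h2; exact hpr rfl; done)
      | (subst h2; subst h3; exact hqs rfl; done)
      | (subst h3; subst h4; exact hpr rfl; done)
      | (subst h4; subst h1; exact hqs rfl; done)

end Pool.Agent.Q279.SN.JGIR
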