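import Pool.Agent.Q222.SN.Base

/-! Project SN, job HAND (helper222): handshake. -/

set_option autoImplicit false

namespace Pool.Agent.Q279.SN.JHAND

open Pool.Agent.Q222.SN Finset

theorem sum_symm {V : Type} [Fintype V] [DecidableEq V] (e : V → V → ZMod 2)
    (hs : ∀ v w, e v w = e w v) (h0 : ∀ v, e v v = 0) : ∑ v, ∑ w, e v w = 0 := by
  rw [← Fintype.sum_prod_type']
  refine Finset.sum_involution (fun p _ => (p.2, p.1)) ?_ ?_ ?_ ?_
  · rintro ⟨v, w⟩ _
    show e v w + e w v = 0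
    rw [hs w v]
    exact CharTwo.add_self_eq_zero _
  · rintro ⟨v, w⟩ _ hne h
    apply hne
    have h1 : w = v := congrArg Prod.fst h
    show e v w = 0
    rw [h1]
    exact h0 v
  · intro p _
    exact Finset.mem_univ _
  · rintro ⟨v, w⟩ _
    rfl

open Classical in
theorem main : Hand := by
  intro P hc hn L ⟨hLs, hLv⟩
  have : Fintype P.V := Fintype.ofFinite P.V
  ext n
  set e : P.V → P.V → ZMod 2 := fun v w => if P.G.Adj v w ∧ n ∈ L v w then 1 else 0 with he
  have hs : ∀ v w, e v w = e w v := by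
    intro v w
    simp only [he]
    rw [hLs v w, P.G.adj_comm v w]
  have h0 : ∀ v, e v v = 0 := by
    intro v
    simp only [he]
    rw [if_neg]
    rintro ⟨h, -⟩
    exact h.ne rfl
  have hsum := sum_symm e hs h0
  have hN : ∀ v w1 w2 w3, Nbr3 P.G v w1 w2 w3 → ∑ w, e v w =
      (if n ∈ L v w1 then 1 else 0) + (if n ∈ L v w2 then 1 else 0) +
        (if n ∈ L v w3 then 1 else 0) := by
    rintro v w1 w2 w3 ⟨h1, h2, h3, h4⟩
    have h5 : ∑ w, e v w = ∑ w ∈ ({w1, w2, w3} : Finset P.V), e v w := by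
      symm
      apply Finset.sum_subset (Finset.subset_univ _)
      intro w _ hw
      simp only [he]
      rw [if_neg]
      rintro ⟨h, -⟩
      rw [h4] at h
      simp at hw
      tauto
    rw [h5, Finset.sum_insert (by simp [h1, h2]), Finset.sum_insert (by simp [h3]),
      Finset.sum_singleton]
    simp only [he]
    have a1 := (h4 w1).2 (Or.inl rfl)
    have a2 := (h4 w2).2 (Or.inr (Or.inl rfl))
    have a3 := (h4 w3).2 (Or.inr (Or.inr rfl))
    simp only [a1, a2, a3, true_and]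
    ring
  have hz : ∀ v, v ≠ P.x → v ≠ P.y → ∑ w, e v w = 0 := by
    intro v hx hy
    obtain ⟨w1, w2, w3, h⟩ := nbr3_of_cubic hc v
    rw [hN v w1 w2 w3 h]
    have h1 := (hLv v hx hy w1 w2 w3 h).2
    rw [h1]
    by_cases h2 : n ∈ L v w2 <;> by_cases h3 : n ∈ L v w3 <;>
      simp [Finset.mem_symmDiff, h2, h3] <;> decide
  have htot : ∑ v, ∑ w, e v w = ∑ v ∈ ({P.x, P.y} : Finset P.V), ∑ w, e v w := by
    symm
    apply Finset.sum_subset (Finset.subset_univ _)
    intro v _ hv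
    simp at hv
    exact hz v hv.1 hv.2
  rw [htot, Finset.sum_insert (by simp [P.hxy.ne]), Finset.sum_singleton,
    hN _ _ _ _ (nbr_x hc), hN _ _ _ _ (nbr_y hc), hLs P.y P.x] at hsum
  rw [Finset.mem_symmDiff, Finset.mem_symmDiff]
  revert hsum
  by_cases h1 : n ∈ L P.x P.y <;> by_cases h2 : n ∈ L P.x P.x0 <;> by_cases h3 : n ∈ L P.x P.x1 <;>
    by_cases h4 : n ∈ L P.y P.y0 <;> by_cases h5 : n ∈ L P.y P.y1 <;>
    simp only [h1, h2, h3, h4, h5, if_true, if_false] <;> decide

end Pool.Agent.Q279.SN.JHAND
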