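import Pool.Agent.Q279.SN.Stm

/-!
# Project SN, job SN-LEN: the length of a cycle cover
-/

set_option autoImplicit false

namespace Pool.Agent.Q279.SN.JLEN

open Finset Pool.Agent.Q279.SN

/-- The handshake lemma with `ncard`. -/
theorem hand {V : Type} [Fintype V] (H : SimpleGraph V) :
    ∑ v, (H.neighborSet v).ncard = 2 * H.edgeSet.ncard := by
  classical
  have h := H.sum_degrees_eq_twice_card_edges
  rw [← SimpleGraph.coe_edgeFinset, Set.ncard_coe_finset, ← h]
  refine Finset.sum_congr rfl fun v _ => ?_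
  rw [← SimpleGraph.card_neighborSet_eq_degree, Set.ncard_eq_toFinset_card', Set.toFinset_card]

theorem handSub {V : Type} [Fintype V] {G : SimpleGraph V} (H : G.Subgraph) :
    ∑ v, (H.neighborSet v).ncard = 2 * H.edgeSet.ncard := by
  have h := hand H.spanningCoe
  have h1 : H.spanningCoe.edgeSet = H.edgeSet := by
    ext e
    induction e using Sym2.ind with
    | _ x y => simp
  have h2 : ∀ v, H.spanningCoe.neighborSet v = H.neighborSet v := by
    intro v
    ext w
    simp [SimpleGraph.mem_neighborSet]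
  rw [h1] at h
  rw [← h]
  exact Finset.sum_congr rfl fun v _ => by rw [h2]

open Classical in
theorem ncard3 {V : Type} (p : V → Prop) (w1 w2 w3 : V) (h12 : w1 ≠ w2) (h13 : w1 ≠ w3)
    (h23 : w2 ≠ w3) (hp : ∀ w, p w → w = w1 ∨ w = w2 ∨ w = w3) :
    {w | p w}.ncard = (if p w1 then 1 else 0) + (if p w2 then 1 else 0) +
      (if p w3 then 1 else 0) := by
  have h : {w | p w} = ((({w1, w2, w3} : Finset V).filter p : Finset V) : Set V) := by
    ext w
    simp only [Finset.coe_filter, Finset.mem_insert, Finset.mem_singleton]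
    constructor
    · intro hw
      exact ⟨hp w hw, hw⟩
    · exact fun hw => hw.2
  rw [h, Set.ncard_coe_finset, Finset.card_filter, Finset.sum_insert (by simp [h12, h13]),
    Finset.sum_insert (by simp [h23]), Finset.sum_singleton, add_assoc]

section main
variable {V : Type} {G : SimpleGraph V} {m : ℕ}

open Classical in
/-- The label of an edge: the indices of the members of the family containing it. -/
noncomputable def lab (C : Fin m → G.Subgraph) (v w : V) : Finset ℕ :=
  ((Finset.univ : Finset (Fin m)).filter fun i => (C i).Adj v w).map Fin.valEmbedding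

theorem mem_lab (C : Fin m → G.Subgraph) (v w : V) (a : ℕ) :
    a ∈ lab C v w ↔ ∃ h : a < m, (C ⟨a, h⟩).Adj v w := by
  classical
  unfold lab
  simp only [Finset.mem_map, Finset.mem_filter, Finset.mem_univ, true_and,
    Fin.valEmbedding_apply]
  constructor
  · rintro ⟨i, hi, rfl⟩
    exact ⟨i.2, hi⟩
  · rintro ⟨h, ha⟩
    exact ⟨⟨a, h⟩, ha, rfl⟩

open Classical in
theorem card_lab (C : Fin m → G.Subgraph) (v w : V) :
    (lab C v w).card = ∑ i, (if (C i).Adj v w then 1 else 0) := by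
  unfold lab
  rw [Finset.card_map, Finset.card_filter]

open Classical in
theorem deg3 (C : Fin m → G.Subgraph) {v w1 w2 w3 : V} (h : Nbr3 G v w1 w2 w3) (i : Fin m) :
    ((C i).neighborSet v).ncard = (if (C i).Adj v w1 then 1 else 0) +
      (if (C i).Adj v w2 then 1 else 0) + (if (C i).Adj v w3 then 1 else 0) := by
  obtain ⟨h12, h13, h23, hw⟩ := h
  exact ncard3 (fun w => (C i).Adj v w) w1 w2 w3 h12 h13 h23
    (fun w hw' => (hw w).1 ((C i).adj_sub hw'))

theorem sum3 (C : Fin m → G.Subgraph) {v w1 w2 w3 : V} (h : Nbr3 G v w1 w2 w3) :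
    ∑ i, ((C i).neighborSet v).ncard =
      (lab C v w1).card + (lab C v w2).card + (lab C v w3).card := by
  classical
  rw [card_lab, card_lab, card_lab, ← Finset.sum_add_distrib, ← Finset.sum_add_distrib]
  exact Finset.sum_congr rfl fun i _ => deg3 C h i

theorem lab_nonempty {C : Fin m → G.Subgraph} (hC : IsCycleCover C) {v w : V}
    (h : G.Adj v w) : (lab C v w).Nonempty := by
  obtain ⟨i, hi⟩ := hC.2 s(v, w) h
  exact ⟨i, (mem_lab C v w i).2 ⟨i.2, hi⟩⟩

theorem lab_valid {C : Fin m → G.Subgraph} (hC : IsCycleCover C) (v : V) :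
    ValidAt G (lab C) v := by
  classical
  intro w1 w2 w3 h
  refine ⟨lab_nonempty hC ((h.2.2.2 w1).2 (Or.inl rfl)), ?_⟩
  ext a
  rw [Finset.mem_symmDiff, mem_lab, mem_lab, mem_lab]
  by_cases ha : a < m
  · have h1 := (hC.1 ⟨a, ha⟩).2 v
    rw [deg3 C h] at h1
    by_cases a1 : (C ⟨a, ha⟩).Adj v w1 <;> by_cases a2 : (C ⟨a, ha⟩).Adj v w2 <;>
      by_cases a3 : (C ⟨a, ha⟩).Adj v w3 <;> simp [a1, a2, a3, ha] at h1 ⊢
    all_goals exact absurd h1 (by decide)
  · simp [ha]

theorem vert_even {C : Fin m → G.Subgraph} (hC : IsCycleCover C) (v : V) :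
    Even (∑ i, ((C i).neighborSet v).ncard) :=
  Finset.even_sum _ fun i _ => (hC.1 i).2 v

theorem exists_nbr3 (hG : Cubic G) (v : V) : ∃ w1 w2 w3, Nbr3 G v w1 w2 w3 := by
  obtain ⟨x, y, z, hxy, hxz, hyz, h⟩ := Set.ncard_eq_three.1 (hG v)
  refine ⟨x, y, z, hxy, hxz, hyz, fun w => ?_⟩
  rw [← SimpleGraph.mem_neighborSet, h]
  simp

open Classical in
theorem vert_ge (hG : Cubic G) {C : Fin m → G.Subgraph} (hC : IsCycleCover C) (v : V) :
    4 + (if GoodAt G (lab C) v then 0 else 2) ≤ ∑ i, ((C i).neighborSet v).ncard := by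
  obtain ⟨w1, w2, w3, h⟩ := exists_nbr3 hG v
  have he := vert_even hC v
  rw [sum3 C h] at he ⊢
  have h1 := Finset.card_pos.2 (lab_nonempty hC ((h.2.2.2 w1).2 (Or.inl rfl)))
  have h2 := Finset.card_pos.2 (lab_nonempty hC ((h.2.2.2 w2).2 (Or.inr (Or.inl rfl))))
  have h3 := Finset.card_pos.2 (lab_nonempty hC ((h.2.2.2 w3).2 (Or.inr (Or.inr rfl))))
  obtain ⟨k, hk⟩ := he
  split_ifs with hg
  · omega
  · by_contra hlt
    apply hg
    have h4 : (lab C v w1).card + (lab C v w2).card + (lab C v w3).card = 4 := by omega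
    obtain ⟨h12, h13, h23, hw⟩ := h
    have hc : ((lab C v w1).card = 2 ∧ (lab C v w2).card = 1 ∧ (lab C v w3).card = 1) ∨
      ((lab C v w1).card = 1 ∧ (lab C v w2).card = 2 ∧ (lab C v w3).card = 1) ∨
      ((lab C v w1).card = 1 ∧ (lab C v w2).card = 1 ∧ (lab C v w3).card = 2) := by omega
    rcases hc with hc | hc | hc
    · exact ⟨w1, w2, w3, ⟨h12, h13, h23, hw⟩, hc⟩
    · exact ⟨w2, w1, w3, ⟨h12.symm, h23, h13, fun w => by rw [hw]; tauto⟩, hc.2.1, hc.1, hc.2.2⟩
    · exact ⟨w3, w1, w2, ⟨h13.symm, h23.symm, h12, fun w => by rw [hw]; tauto⟩, hc.2.2, hc.1,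
        hc.2.1⟩

end main

/-- JOB SN-LEN. -/
theorem main : Pool.Agent.Q279.SN.CoverLen := by
  classical
  intro V hfin G hG m C hC
  have : Fintype V := Fintype.ofFinite V
  refine ⟨lab C, ⟨fun v w => ?_, lab_valid hC⟩, ?_⟩
  · ext a
    rw [mem_lab, mem_lab]
    exact ⟨fun ⟨h, h'⟩ => ⟨h, h'.symm⟩, fun ⟨h, h'⟩ => ⟨h, h'.symm⟩⟩
  · have h1 : 3 * Fintype.card V = 2 * G.edgeSet.ncard := by
      rw [← hand G, Finset.sum_congr rfl (fun v _ => hG v), Finset.sum_const, Finset.card_univ,
        smul_eq_mul, mul_comm]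
    have h2 : ∑ v, ∑ i, ((C i).neighborSet v).ncard = 2 * coverLength C := by
      rw [Finset.sum_comm]
      unfold coverLength
      rw [Finset.mul_sum]
      exact Finset.sum_congr rfl fun i _ => handSub (C i)
    have h3 : ∑ v : V, (4 + (if GoodAt G (lab C) v then 0 else 2)) ≤
        ∑ v, ∑ i, ((C i).neighborSet v).ncard :=
      Finset.sum_le_sum fun v _ => vert_ge hG hC v
    have h4 : ∑ v : V, (4 + (if GoodAt G (lab C) v then 0 else 2)) =
        4 * Fintype.card V + 2 * {v | ¬ GoodAt G (lab C) v}.ncard := by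
      rw [Finset.sum_add_distrib, Finset.sum_const, Finset.card_univ, smul_eq_mul]
      have h5 : {v | ¬ GoodAt G (lab C) v}.ncard =
          (Finset.univ.filter fun v => ¬ GoodAt G (lab C) v).card := by
        rw [← Set.ncard_coe_finset]
        congr 1
        ext v
        simp
      rw [h5, Finset.card_filter, Finset.mul_sum, mul_comm]
      congr 1
      refine Finset.sum_congr rfl fun v _ => ?_
      split_ifs <;> simp_all
    omega

end Pool.Agent.Q279.SN.JLEN
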