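import Pool.Agent.Q279.SN.Stm

/-!
# Project SN, job SN-MANY: the number of bad vertices triples
-/

set_option autoImplicit false

namespace Pool.Agent.Q279.SN.JMANY

open Finset Pool.Agent.Q279.SN

/-- JOB SN-MANY. -/
theorem main : Pool.Agent.Q279.SN.JNextMany := by
  classical
  intro hR P N hc hn hM L hL
  have h1 := fun i : Fin 3 => hR P hc hn L hL i
  choose M hMp hMg _ _ _ _ using h1
  -- the map from bad vertices of the copies
  have hinj : ∀ (i : Fin 3), ∀ v ∈ Bad P (M i), ∃ w ∈ Bad (next P) L,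
      ∃ (hx : v ≠ P.x) (hy : v ≠ P.y), w = (CV.h i v hx hy : CV (three P)) := by
    intro i v hv
    obtain ⟨hx, hy, hb⟩ := hv
    refine ⟨(CV.h i v hx hy : CV (three P)), ⟨?_, ?_, ?_⟩, hx, hy, rfl⟩
    · intro h; cases h
    · intro h; cases h
    · intro h
      exact hb ((hMg i v hx hy).2 h)
  -- a map from the sigma type
  let f : (Σ i : Fin 3, (Bad P (M i))) → (Bad (next P) L) := fun s =>
    ⟨(hinj s.1 s.2.1 s.2.2).choose, (hinj s.1 s.2.1 s.2.2).choose_spec.1⟩
  have hf : Function.Injective f := by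
    rintro ⟨i, v, hv⟩ ⟨j, w, hw⟩ h
    have h2 : (hinj i v hv).choose = (hinj j w hw).choose := congrArg Subtype.val h
    obtain ⟨hx, hy, e1⟩ := (hinj i v hv).choose_spec.2
    obtain ⟨hx', hy', e2⟩ := (hinj j w hw).choose_spec.2
    have h3 : (CV.h i v hx hy : CV (three P)) = CV.h j w hx' hy' := by
      rw [← e1, ← e2]; exact h2
    injection h3 with h4 h5
    subst h4
    have h6 : v = w := by simpa using h5
    subst h6
    rfl
  have hfin : Finite (next P).V := (next P).fin
  have hcard : Nat.card (Σ i : Fin 3, (Bad P (M i))) ≤ Nat.card (Bad (next P) L) :=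
    Nat.card_le_card_of_injective f hf
  have h7 : Nat.card (Σ i : Fin 3, (Bad P (M i))) = ∑ i : Fin 3, Nat.card (Bad P (M i)) := by
    rw [Nat.card_sigma]
  rw [h7, Fin.sum_univ_three] at hcard
  have h8 : ∀ i, N ≤ Nat.card (Bad P (M i)) := fun i => by
    have := hM (M i) (hMp i)
    rwa [← Nat.card_coe_set_eq] at this
  have h9 : (Bad (next P) L).ncard = Nat.card (Bad (next P) L) :=
    (Nat.card_coe_set_eq _).symm
  rw [h9]
  have := h8 0
  have := h8 1
  have := h8 2
  omega

end Pool.Agent.Q279.SN.JMANY
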