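import Pool.Agent.Q279.SN.Stm

/-!
# Project SN, job SN-ONE: a bad vertex in the next piece after a piece with forced sizes

The first part (neighbours in the composite graph) may be used by other files.
-/

set_option autoImplicit false

namespace Pool.Agent.Q279.SN.JONE

open Finset Pool.Agent.Q279.SN

section nbr
variable (P : Piece)

theorem nbr_a (i : Fin 3) : Nbr3 (comp (three P)) (CV.a i) (CV.c i)
    (CV.h (i + 1) P.x0 P.hx0.ne' P.hx0y) (CV.h (i - 1) P.y0 P.hy0x P.hy0.ne') := by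
  refine ⟨by simp, by simp, ?_, fun w => ?_⟩
  · intro h
    injection h with h1
    revert h1
    fin_cases i <;> decide
  · rw [comp, SimpleGraph.fromRel_adj]
    constructor
    · rintro ⟨_, h | h⟩
      · cases h
        · exact Or.inr (Or.inl rfl)
        · exact Or.inr (Or.inr rfl)
      · cases h
        exact Or.inl rfl
    · rintro (rfl | rfl | rfl)
      · exact ⟨by simp, Or.inr (CE.ca i)⟩
      · exact ⟨by simp, Or.inl (CE.ax i)⟩
      · exact ⟨by simp, Or.inl (CE.ay i)⟩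

theorem nbr_b (i : Fin 3) : Nbr3 (comp (three P)) (CV.b i) (CV.c i)
    (CV.h (i + 1) P.x1 P.hx1.ne' P.hx1y) (CV.h (i - 1) P.y1 P.hy1x P.hy1.ne') := by
  refine ⟨by simp, by simp, ?_, fun w => ?_⟩
  · intro h
    injection h with h1
    revert h1
    fin_cases i <;> decide
  · rw [comp, SimpleGraph.fromRel_adj]
    constructor
    · rintro ⟨_, h | h⟩
      · cases h
        · exact Or.inr (Or.inl rfl)
        · exact Or.inr (Or.inr rfl)
      · cases h
        exact Or.inl rfl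
    · rintro (rfl | rfl | rfl)
      · exact ⟨by simp, Or.inr (CE.cb i)⟩
      · exact ⟨by simp, Or.inl (CE.bx i)⟩
      · exact ⟨by simp, Or.inl (CE.by1 i)⟩

theorem nbr_c (i : Fin 3) : Nbr3 (comp (three P)) (CV.c i) (CV.a i) (CV.b i) CV.u := by
  refine ⟨by simp, by simp, by simp, fun w => ?_⟩
  rw [comp, SimpleGraph.fromRel_adj]
  constructor
  · rintro ⟨_, h | h⟩
    · cases h
      · exact Or.inl rfl
      · exact Or.inr (Or.inl rfl)
      · exact Or.inr (Or.inr rfl)
    · cases h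
  · rintro (rfl | rfl | rfl)
    · exact ⟨by simp, Or.inl (CE.ca i)⟩
    · exact ⟨by simp, Or.inl (CE.cb i)⟩
    · exact ⟨by simp, Or.inl (CE.cu i)⟩

theorem nbr_u : Nbr3 (comp (three P)) CV.u (CV.c 0) (CV.c 1) (CV.c 2) := by
  refine ⟨?_, ?_, ?_, fun w => ?_⟩
  · intro h; injection h with h1; revert h1; decide
  · intro h; injection h with h1; revert h1; decide
  · intro h; injection h with h1; revert h1; decide
  · rw [comp, SimpleGraph.fromRel_adj]
    constructor
    · rintro ⟨_, h | h⟩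
      · cases h
      · cases h with
        | cu i =>
          fin_cases i
          · exact Or.inl rfl
          · exact Or.inr (Or.inl rfl)
          · exact Or.inr (Or.inr rfl)
    · rintro (rfl | rfl | rfl)
      · exact ⟨by simp, Or.inr (CE.cu 0)⟩
      · exact ⟨by simp, Or.inr (CE.cu 1)⟩
      · exact ⟨by simp, Or.inr (CE.cu 2)⟩

end nbr

/-- The sizes of the labels at a good vertex, for any order of the neighbours. -/
theorem good_cards {V : Type} {G : SimpleGraph V} {L : V → V → Finset ℕ} {v w1 w2 w3 : V}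
    (hg : GoodAt G L v) (h : Nbr3 G v w1 w2 w3) :
    ((L v w1).card = 2 ∧ (L v w2).card = 1 ∧ (L v w3).card = 1) ∨
    ((L v w1).card = 1 ∧ (L v w2).card = 2 ∧ (L v w3).card = 1) ∨
    ((L v w1).card = 1 ∧ (L v w2).card = 1 ∧ (L v w3).card = 2) := by
  obtain ⟨u1, u2, u3, hu, c1, c2, c3⟩ := hg
  obtain ⟨h12, h13, h23, hN⟩ := h
  have m1 := (hu.2.2.2 w1).1 ((hN w1).2 (Or.inl rfl))
  have m2 := (hu.2.2.2 w2).1 ((hN w2).2 (Or.inr (Or.inl rfl)))
  have m3 := (hu.2.2.2 w3).1 ((hN w3).2 (Or.inr (Or.inr rfl)))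
  rcases m1 with rfl | rfl | rfl <;> rcases m2 with rfl | rfl | rfl <;>
    rcases m3 with rfl | rfl | rfl <;>
    first
    | exact absurd rfl h12
    | exact absurd rfl h13
    | exact absurd rfl h23
    | exact Or.inl ⟨c1, c2, c3⟩
    | exact Or.inl ⟨c1, c3, c2⟩
    | exact Or.inr (Or.inl ⟨c2, c1, c3⟩)
    | exact Or.inr (Or.inl ⟨c3, c1, c2⟩)
    | exact Or.inr (Or.inr ⟨c2, c3, c1⟩)
    | exact Or.inr (Or.inr ⟨c3, c2, c1⟩)

/-- JOB SN-ONE. -/
theorem main : Pool.Agent.Q279.SN.JNextBad := by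
  classical
  intro hR P hc hn hF L hL
  have hfin : Finite (next P).V := (next P).fin
  by_contra hlt
  have h0 : (Bad (next P) L).ncard = 0 := by omega
  have hemp : Bad (next P) L = ∅ := (Set.ncard_eq_zero (Set.toFinite _)).1 h0
  have hgood : ∀ v : CV (three P), v ≠ CV.c 0 → v ≠ CV.a 0 → GoodAt (comp (three P)) L v := by
    intro v h1 h2
    by_contra h3
    have : v ∈ Bad (next P) L := ⟨h1, h2, h3⟩
    rw [hemp] at this
    exact this
  have hs : ∀ v w : CV (three P), L v w = L w v := hL.1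
  have key : ∀ i : Fin 3,
      (L (CV.a (i - 1) : CV (three P)) (CV.h i P.x0 P.hx0.ne' P.hx0y)).card = 1 ∧
      (L (CV.b (i - 1) : CV (three P)) (CV.h i P.x1 P.hx1.ne' P.hx1y)).card = 1 ∧
      (L (CV.a (i + 1) : CV (three P)) (CV.h i P.y0 P.hy0x P.hy0.ne')).card = 2 ∧
      (L (CV.b (i + 1) : CV (three P)) (CV.h i P.y1 P.hy1x P.hy1.ne')).card = 2 := by
    intro i
    obtain ⟨M, hM, hMg, e1, e2, e3, e4⟩ := hR P hc hn L hL i
    have := hF M hM (fun v hx hy => (hMg v hx hy).2 (hgood _ (by simp) (by simp)))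
    rw [e1, e2, e3, e4] at this
    exact this
  have a1 := good_cards (hgood (CV.a 1) (by simp) (by simp)) (nbr_a P 1)
  have b1 := good_cards (hgood (CV.b 1) (by simp) (by simp)) (nbr_b P 1)
  have c1 := good_cards (hgood (CV.c 1) (by simp) (by simp)) (nbr_c P 1)
  have a2 := good_cards (hgood (CV.a 2) (by simp) (by simp)) (nbr_a P 2)
  have b2 := good_cards (hgood (CV.b 2) (by simp) (by simp)) (nbr_b P 2)
  have c2 := good_cards (hgood (CV.c 2) (by simp) (by simp)) (nbr_c P 2)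
  have u := good_cards (hgood CV.u (by simp) (by simp)) (nbr_u P)
  obtain ⟨x20, x21, _, _⟩ := key 2
  obtain ⟨x00, x01, y00, y01⟩ := key 0
  obtain ⟨_, _, y10, y11⟩ := key 1
  have q1 : (L (CV.a 1 : CV (three P)) (CV.h (1 + 1) P.x0 P.hx0.ne' P.hx0y)).card = 1 := x20
  have q2 : (L (CV.a 1 : CV (three P)) (CV.h (1 - 1) P.y0 P.hy0x P.hy0.ne')).card = 2 := y00
  have q3 : (L (CV.b 1 : CV (three P)) (CV.h (1 + 1) P.x1 P.hx1.ne' P.hx1y)).card = 1 := x21
  have q4 : (L (CV.b 1 : CV (three P)) (CV.h (1 - 1) P.y1 P.hy1x P.hy1.ne')).card = 2 := y01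
  have q5 : (L (CV.a 2 : CV (three P)) (CV.h (2 + 1) P.x0 P.hx0.ne' P.hx0y)).card = 1 := x00
  have q6 : (L (CV.a 2 : CV (three P)) (CV.h (2 - 1) P.y0 P.hy0x P.hy0.ne')).card = 2 := y10
  have q7 : (L (CV.b 2 : CV (three P)) (CV.h (2 + 1) P.x1 P.hx1.ne' P.hx1y)).card = 1 := x01
  have q8 : (L (CV.b 2 : CV (three P)) (CV.h (2 - 1) P.y1 P.hy1x P.hy1.ne')).card = 2 := y11
  have r1 := congrArg Finset.card (hs (CV.a 1) (CV.c 1))
  have r2 := congrArg Finset.card (hs (CV.b 1) (CV.c 1))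
  have r3 := congrArg Finset.card (hs (CV.a 2) (CV.c 2))
  have r4 := congrArg Finset.card (hs (CV.b 2) (CV.c 2))
  have r5 := congrArg Finset.card (hs (CV.c 1) CV.u)
  have r6 := congrArg Finset.card (hs (CV.c 2) CV.u)
  omega

end Pool.Agent.Q279.SN.JONE
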