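import Pool.Agent.Q279.SN.Stm

/-!
# Job SN-P4: small cuts in the next piece
-/

namespace Pool.Agent.Q279.SN.JP4

open Finset

section general
variable {V : Type} (G : SimpleGraph V)

/-- The ordered pairs which are cut edges. -/
def DD (X : Set V) : Set (V × V) := {p | G.Adj p.1 p.2 ∧ p.1 ∈ X ∧ p.2 ∉ X}

theorem ncard_edgeCut (X : Set V) : (edgeCut G X).ncard = (DD G X).ncard := by
  have h : edgeCut G X = (fun p : V × V => s(p.1, p.2)) '' DD G X := by
    ext e
    constructor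
    · rintro ⟨v, w, h1, h2, h3, rfl⟩
      exact ⟨(v, w), ⟨h1, h2, h3⟩, rfl⟩
    · rintro ⟨⟨v, w⟩, ⟨h1, h2, h3⟩, rfl⟩
      exact ⟨v, w, h1, h2, h3, rfl⟩
  rw [h]
  apply Set.InjOn.ncard_image
  rintro ⟨v, w⟩ ⟨h1, h2, h3⟩ ⟨v', w'⟩ ⟨h1', h2', h3'⟩ he
  simp only [Sym2.eq_iff] at he
  simp only at h1 h2 h3 h1' h2' h3'
  rcases he with ⟨rfl, rfl⟩ | ⟨rfl, rfl⟩
  · rfl
  · exact absurd h2 h3'

theorem edgeCut_compl (X : Set V) : edgeCut G Xᶜ = edgeCut G X := by
  ext e
  constructor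
  · rintro ⟨v, w, h1, h2, h3, rfl⟩
    exact ⟨w, v, h1.symm, not_not.mp h3, h2, Sym2.eq_swap⟩
  · rintro ⟨v, w, h1, h2, h3, rfl⟩
    exact ⟨w, v, h1.symm, h3, fun h => h h2, Sym2.eq_swap⟩

variable {G}

theorem cut_single (hG : Cubic G) (v : V) : (edgeCut G {v}).ncard = 3 := by
  rw [ncard_edgeCut, ← hG v]
  have h : DD G {v} = (fun w => (v, w)) '' G.neighborSet v := by
    ext ⟨a, b⟩
    constructor
    · rintro ⟨h1, h2, h3⟩
      simp only [Set.mem_singleton_iff] at h1 h2 h3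
      subst h2
      exact ⟨b, h1, rfl⟩
    · rintro ⟨w, hw, he⟩
      simp only [Prod.mk.injEq] at he
      obtain ⟨rfl, rfl⟩ := he
      exact ⟨hw, rfl, fun h => G.ne_of_adj hw h.symm⟩
  rw [h]
  apply Set.InjOn.ncard_image
  intro a _ b _ hab
  simpa using hab

/-- Membership as a number. -/
noncomputable def bt (X : Set V) (v : V) : ℕ := by
  classical exact if v ∈ X then 1 else 0

/-- Whether the two vertices are on different sides. -/
noncomputable def dl (X : Set V) (v w : V) : ℕ := by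
  classical exact if (v ∈ X ↔ w ∈ X) then 0 else 1

theorem dl_le (X : Set V) (v w : V) : bt X v ≤ bt X w + dl X v w := by
  unfold bt dl
  split_ifs <;> simp_all

theorem dl_le' (X : Set V) (v w : V) : bt X w ≤ bt X v + dl X v w := by
  unfold bt dl
  split_ifs <;> simp_all

theorem dl_symm (X : Set V) (v w : V) : dl X v w = dl X w v := by
  unfold dl
  by_cases h : v ∈ X <;> by_cases h' : w ∈ X <;> simp [h, h']

theorem dl_tri (X : Set V) (u v w : V) : dl X u w ≤ dl X u v + dl X v w := by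
  unfold dl
  split_ifs <;> simp_all

theorem bt_le (X : Set V) (v : V) : bt X v ≤ 1 := by
  unfold bt
  split_ifs <;> simp

theorem bt_compl (X : Set V) (v : V) : bt Xᶜ v + bt X v = 1 := by
  unfold bt
  by_cases h : v ∈ X <;> simp [h]

end general

/-! ## Pieces -/

section piece
variable (P : Piece)

/-- The cut pairs away from `x, y`. -/
def II (Y : Set P.V) : Set (P.V × P.V) :=
  {p | P.G.Adj p.1 p.2 ∧ p.1 ∈ Y ∧ p.2 ∉ Y ∧ p.1 ≠ P.x ∧ p.1 ≠ P.y ∧ p.2 ≠ P.x ∧ p.2 ≠ P.y}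

/-- Pair of vertices in the order inside, outside, when cut. -/
noncomputable def prs (Y : Set P.V) (v w : P.V) : Finset (P.V × P.V) := by
  classical exact if v ∈ Y ∧ w ∉ Y then {(v, w)} else if w ∈ Y ∧ v ∉ Y then {(w, v)} else ∅

theorem card_prs (Y : Set P.V) (v w : P.V) : (prs P Y v w).card ≤ dl Y v w := by
  unfold prs dl
  split_ifs <;> simp_all

theorem nbr_x (hC : Cubic P.G) (w : P.V) (h : P.G.Adj P.x w) : w = P.y ∨ w = P.x0 ∨ w = P.x1 := by
  classical
  by_contra hcon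
  push Not at hcon
  have hsub : ({w, P.y, P.x0, P.x1} : Set P.V) ⊆ P.G.neighborSet P.x := by
    intro z hz
    simp only [Set.mem_insert_iff, Set.mem_singleton_iff] at hz
    rcases hz with rfl | rfl | rfl | rfl
    · exact h
    · exact P.hxy
    · exact P.hx0
    · exact P.hx1
  have h4 : ({w, P.y, P.x0, P.x1} : Set P.V).ncard = 4 := by
    rw [Set.ncard_insert_of_notMem, Set.ncard_insert_of_notMem, Set.ncard_pair P.hx01]
    · simp only [Set.mem_insert_iff, Set.mem_singleton_iff, not_or]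
      exact ⟨P.hx0y.symm, P.hx1y.symm⟩
    · simp only [Set.mem_insert_iff, Set.mem_singleton_iff, not_or]
      exact hcon
  have := Set.ncard_le_ncard hsub (Set.toFinite _)
  rw [h4, hC P.x] at this
  omega

theorem nbr_y (hC : Cubic P.G) (w : P.V) (h : P.G.Adj P.y w) : w = P.x ∨ w = P.y0 ∨ w = P.y1 := by
  classical
  by_contra hcon
  push Not at hcon
  have hsub : ({w, P.x, P.y0, P.y1} : Set P.V) ⊆ P.G.neighborSet P.y := by
    intro z hz
    simp only [Set.mem_insert_iff, Set.mem_singleton_iff] at hz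
    rcases hz with rfl | rfl | rfl | rfl
    · exact h
    · exact P.hxy.symm
    · exact P.hy0
    · exact P.hy1
  have h4 : ({w, P.x, P.y0, P.y1} : Set P.V).ncard = 4 := by
    rw [Set.ncard_insert_of_notMem, Set.ncard_insert_of_notMem, Set.ncard_pair P.hy01]
    · simp only [Set.mem_insert_iff, Set.mem_singleton_iff, not_or]
      exact ⟨P.hy0x.symm, P.hy1x.symm⟩
    · simp only [Set.mem_insert_iff, Set.mem_singleton_iff, not_or]
      exact hcon
  have := Set.ncard_le_ncard hsub (Set.toFinite _)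
  rw [h4, hC P.y] at this
  omega

/-- Upper bound for the cut in a piece. -/
theorem cut_le (hC : Cubic P.G) (Y : Set P.V) :
    (edgeCut P.G Y).ncard ≤ (II P Y).ncard + dl Y P.x P.y + dl Y P.x P.x0 + dl Y P.x P.x1 +
      dl Y P.y P.y0 + dl Y P.y P.y1 := by
  classical
  rw [ncard_edgeCut]
  have hsub : DD P.G Y ⊆ II P Y ∪ (↑(prs P Y P.x P.y) ∪ ↑(prs P Y P.x P.x0) ∪
      ↑(prs P Y P.x P.x1) ∪ ↑(prs P Y P.y P.y0) ∪ ↑(prs P Y P.y P.y1) : Set (P.V × P.V)) := by
    rintro ⟨v, w⟩ ⟨h1, h2, h3⟩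
    simp only at h1 h2 h3
    by_cases hvx : v = P.x
    · subst hvx
      rcases nbr_x P hC w h1 with rfl | rfl | rfl
      all_goals simp [prs, h2, h3]
    by_cases hvy : v = P.y
    · subst hvy
      rcases nbr_y P hC w h1 with rfl | rfl | rfl
      all_goals simp [prs, h2, h3]
    by_cases hwx : w = P.x
    · subst hwx
      rcases nbr_x P hC v h1.symm with rfl | rfl | rfl
      all_goals simp [prs, h2, h3]
    by_cases hwy : w = P.y
    · subst hwy
      rcases nbr_y P hC v h1.symm with rfl | rfl | rfl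
      all_goals simp [prs, h2, h3]
    left
    exact ⟨h1, h2, h3, hvx, hvy, hwx, hwy⟩
  have h0 := Set.ncard_le_ncard hsub (Set.toFinite _)
  have h1 := Set.ncard_union_le (II P Y) (↑(prs P Y P.x P.y) ∪ ↑(prs P Y P.x P.x0) ∪
      ↑(prs P Y P.x P.x1) ∪ ↑(prs P Y P.y P.y0) ∪ ↑(prs P Y P.y P.y1) : Set (P.V × P.V))
  have h2 := Set.ncard_union_le (↑(prs P Y P.x P.y) ∪ ↑(prs P Y P.x P.x0) ∪
      ↑(prs P Y P.x P.x1) ∪ ↑(prs P Y P.y P.y0) : Set (P.V × P.V)) (↑(prs P Y P.y P.y1))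
  have h3 := Set.ncard_union_le (↑(prs P Y P.x P.y) ∪ ↑(prs P Y P.x P.x0) ∪
      ↑(prs P Y P.x P.x1) : Set (P.V × P.V)) (↑(prs P Y P.y P.y0))
  have h4 := Set.ncard_union_le (↑(prs P Y P.x P.y) ∪ ↑(prs P Y P.x P.x0) : Set (P.V × P.V))
      (↑(prs P Y P.x P.x1))
  have h5 := Set.ncard_union_le (↑(prs P Y P.x P.y) : Set (P.V × P.V)) (↑(prs P Y P.x P.x0))
  have e1 := card_prs P Y P.x P.y
  have e2 := card_prs P Y P.x P.x0
  have e3 := card_prs P Y P.x P.x1
  have e4 := card_prs P Y P.y P.y0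
  have e5 := card_prs P Y P.y P.y1
  rw [← Set.ncard_coe_finset] at e1 e2 e3 e4 e5
  omega

end piece

/-! ## The composite -/

section composite
variable (P : Piece)

/-- The vertex of the `i`-th copy, or `u`. -/
noncomputable def hh (i : Fin 3) (v : P.V) : CV (three P) := by
  classical exact if h : v ≠ P.x ∧ v ≠ P.y then CV.h i v h.1 h.2 else CV.u

theorem hh_eq (i : Fin 3) (v : P.V) (hx : v ≠ P.x) (hy : v ≠ P.y) :
    hh P i v = CV.h i v hx hy := by
  unfold hh
  rw [dif_pos ⟨hx, hy⟩]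

/-- The classification of the pairs. -/
def cl : CV (three P) × CV (three P) → Fin 3 × Fin 8
  | (.h i _ _ _, .h _ _ _ _) => (i, 7)
  | (.a i, .h j _ _ _) => (i, if j = i + 1 then 0 else 1)
  | (.h j _ _ _, .a i) => (i, if j = i + 1 then 0 else 1)
  | (.b i, .h j _ _ _) => (i, if j = i + 1 then 2 else 3)
  | (.h j _ _ _, .b i) => (i, if j = i + 1 then 2 else 3)
  | (.c i, .a _) => (i, 4)
  | (.a _, .c i) => (i, 4)
  | (.c i, .b _) => (i, 5)
  | (.b _, .c i) => (i, 5)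
  | (.c i, .u) => (i, 6)
  | (.u, .c i) => (i, 6)
  | _ => (0, 7)

/-- The part of `X` in the `i`-th copy. -/
def Si (X : Set (CV (three P))) (i : Fin 3) : Set P.V :=
  {v | ∃ (hx : v ≠ P.x) (hy : v ≠ P.y), CV.h i v hx hy ∈ X}

theorem fib (X : Set (CV (three P))) (p q : CV (three P)) (t : Fin 3 × Fin 8)
    (hadj : (comp (three P)).Adj p q) (h1 : cl P (p, q) = t) (h2 : cl P (q, p) = t) :
    dl X p q ≤ {z ∈ DD (comp (three P)) X | cl P z = t}.ncard := by
  classical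
  unfold dl
  split_ifs with h
  · exact Nat.zero_le _
  · by_cases hp : p ∈ X
    · have hq : q ∉ X := fun hq => h ⟨fun _ => hq, fun _ => hp⟩
      have : ({(p, q)} : Set _) ⊆ {z ∈ DD (comp (three P)) X | cl P z = t} := by
        intro z hz
        rw [Set.mem_singleton_iff] at hz
        subst hz
        exact ⟨⟨hadj, hp, hq⟩, h1⟩
      have := Set.ncard_le_ncard this (Set.toFinite _)
      rwa [Set.ncard_singleton] at this
    · have hq : q ∈ X := by
        by_contra hq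
        exact h ⟨fun h => absurd h hp, fun h => absurd h hq⟩
      have : ({(q, p)} : Set _) ⊆ {z ∈ DD (comp (three P)) X | cl P z = t} := by
        intro z hz
        rw [Set.mem_singleton_iff] at hz
        subst hz
        exact ⟨⟨hadj.symm, hq, hp⟩, h2⟩
      have := Set.ncard_le_ncard this (Set.toFinite _)
      rwa [Set.ncard_singleton] at this

theorem fib7 (X : Set (CV (three P))) (i : Fin 3) :
    (II P (Si P X i)).ncard ≤ {z ∈ DD (comp (three P)) X | cl P z = (i, 7)}.ncard := by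
  apply Set.ncard_le_ncard_of_injOn (fun z => (hh P i z.1, hh P i z.2))
  · rintro ⟨v, w⟩ ⟨h1, h2, h3, h4, h5, h6, h7⟩
    simp only at h1 h2 h3 h4 h5 h6 h7
    obtain ⟨_, _, h2⟩ := h2
    simp only [hh_eq P i v h4 h5, hh_eq P i w h6 h7]
    refine ⟨⟨?_, h2, fun h => h3 ⟨h6, h7, h⟩⟩, rfl⟩
    show (comp (three P)).Adj (CV.h i v h4 h5) (CV.h i w h6 h7)
    refine comp_adj_of (P := three P) (CE.inner (P := three P) i v w h4 h5 h6 h7 h1) ?_
    intro he
    simp only [CV.h.injEq, heq_eq_eq, true_and] at he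
    exact P.G.ne_of_adj h1 he
  · rintro ⟨v, w⟩ ⟨h1, h2, h3, h4, h5, h6, h7⟩ ⟨v', w'⟩ ⟨h1', h2', h3', h4', h5', h6', h7'⟩ he
    simp only at h1 h2 h3 h4 h5 h6 h7 h1' h2' h3' h4' h5' h6' h7'
    simp only [hh_eq P i v h4 h5, hh_eq P i w h6 h7, hh_eq P i v' h4' h5', hh_eq P i w' h6' h7',
      Prod.mk.injEq, CV.h.injEq, heq_eq_eq, true_and] at he
    rw [he.1, he.2]

/-- The contribution of index `i`. -/
noncomputable def TT (X : Set (CV (three P))) (i : Fin 3) : ℕ :=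
  (II P (Si P X i)).ncard + dl X (.a i) (hh P (i + 1) P.x0) + dl X (.a i) (hh P (i - 1) P.y0) +
  dl X (.b i) (hh P (i + 1) P.x1) + dl X (.b i) (hh P (i - 1) P.y1) + dl X (.c i) (.a i) +
  dl X (.c i) (.b i) + dl X (.c i) .u

theorem le_cut (X : Set (CV (three P))) :
    TT P X 0 + TT P X 1 + TT P X 2 ≤ (edgeCut (comp (three P)) X).ncard := by
  classical
  rw [ncard_edgeCut]
  have hfin : (DD (comp (three P)) X).Finite := Set.toFinite _
  have h := Finset.card_eq_sum_card_fiberwise (f := cl P) (s := hfin.toFinset)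
    (t := (Finset.univ : Finset (Fin 3 × Fin 8))) (fun _ _ => Finset.mem_univ _)
  have hc : ∀ t, #{z ∈ hfin.toFinset | cl P z = t} =
      {z ∈ DD (comp (three P)) X | cl P z = t}.ncard := by
    intro t
    rw [← Set.ncard_coe_finset]
    congr 1
    ext z
    simp
  simp only [hc] at h
  rw [← Set.ncard_eq_toFinset_card _ hfin, Fintype.sum_prod_type] at h
  rw [h, Fin.sum_univ_three]
  have key : ∀ i, TT P X i ≤ ∑ y, {z ∈ DD (comp (three P)) X | cl P z = (i, y)}.ncard := by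
    intro i
    rw [Fin.sum_univ_eight]
    have e7 := fib7 P X i
    have e0 := fib P X (.a i) (hh P (i + 1) P.x0) (i, 0)
      (by rw [hh_eq P (i + 1) P.x0 P.hx0.ne' P.hx0y]; exact comp_adj_of (CE.ax i) (by simp))
      (by rw [hh_eq P (i + 1) P.x0 P.hx0.ne' P.hx0y]; simp [cl])
      (by rw [hh_eq P (i + 1) P.x0 P.hx0.ne' P.hx0y]; simp [cl])
    have hi : ¬ (i - 1 = i + 1) := by fin_cases i <;> decide
    have e1 := fib P X (.a i) (hh P (i - 1) P.y0) (i, 1)
      (by rw [hh_eq P (i - 1) P.y0 P.hy0x P.hy0.ne']; exact comp_adj_of (CE.ay i) (by simp))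
      (by rw [hh_eq P (i - 1) P.y0 P.hy0x P.hy0.ne']; simp [cl, hi])
      (by rw [hh_eq P (i - 1) P.y0 P.hy0x P.hy0.ne']; simp [cl, hi])
    have e2 := fib P X (.b i) (hh P (i + 1) P.x1) (i, 2)
      (by rw [hh_eq P (i + 1) P.x1 P.hx1.ne' P.hx1y]; exact comp_adj_of (CE.bx i) (by simp))
      (by rw [hh_eq P (i + 1) P.x1 P.hx1.ne' P.hx1y]; simp [cl])
      (by rw [hh_eq P (i + 1) P.x1 P.hx1.ne' P.hx1y]; simp [cl])
    have e3 := fib P X (.b i) (hh P (i - 1) P.y1) (i, 3)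
      (by rw [hh_eq P (i - 1) P.y1 P.hy1x P.hy1.ne']; exact comp_adj_of (CE.by1 i) (by simp))
      (by rw [hh_eq P (i - 1) P.y1 P.hy1x P.hy1.ne']; simp [cl, hi])
      (by rw [hh_eq P (i - 1) P.y1 P.hy1x P.hy1.ne']; simp [cl, hi])
    have e4 := fib P X (.c i) (.a i) (i, 4) (comp_adj_of (CE.ca i) (by simp)) rfl rfl
    have e5 := fib P X (.c i) (.b i) (i, 5) (comp_adj_of (CE.cb i) (by simp)) rfl rfl
    have e6 := fib P X (.c i) .u (i, 6) (comp_adj_of (CE.cu i) (by simp)) rfl rfl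
    unfold TT
    omega
  have := key 0
  have := key 1
  have := key 2
  omega

theorem le_cut' (X : Set (CV (three P))) (i : Fin 3) :
    TT P X (i - 1) + TT P X i + TT P X (i + 1) ≤ (edgeCut (comp (three P)) X).ncard := by
  have h := le_cut P X
  have hi : i = 0 ∨ i = 1 ∨ i = 2 := by fin_cases i <;> simp
  rcases hi with rfl | rfl | rfl
  · have e1 : (0 : Fin 3) - 1 = 2 := rfl
    have e2 : (0 : Fin 3) + 1 = 1 := rfl
    rw [e1, e2]
    omega
  · have e1 : (1 : Fin 3) - 1 = 0 := rfl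
    have e2 : (1 : Fin 3) + 1 = 2 := rfl
    rw [e1, e2]
    omega
  · have e1 : (2 : Fin 3) - 1 = 1 := rfl
    have e2 : (2 : Fin 3) + 1 = 0 := rfl
    rw [e1, e2]
    omega

/-- The part of `X` in the `i`-th copy with prescribed sides of `x, y`. -/
def YY (X : Set (CV (three P))) (i : Fin 3) (α β : Prop) : Set P.V :=
  {v | (v = P.x ∧ α) ∨ (v = P.y ∧ β) ∨ v ∈ Si P X i}

theorem mem_Si (X : Set (CV (three P))) (i : Fin 3) (v : P.V) (hx : v ≠ P.x) (hy : v ≠ P.y) :
    v ∈ Si P X i ↔ hh P i v ∈ X := by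
  rw [hh_eq P i v hx hy]
  exact ⟨fun ⟨_, _, h⟩ => h, fun h => ⟨hx, hy, h⟩⟩

theorem x_notMem_Si (X : Set (CV (three P))) (i : Fin 3) : P.x ∉ Si P X i :=
  fun ⟨h, _, _⟩ => h rfl

theorem y_notMem_Si (X : Set (CV (three P))) (i : Fin 3) : P.y ∉ Si P X i :=
  fun ⟨_, h, _⟩ => h rfl

theorem mem_YY (X : Set (CV (three P))) (i : Fin 3) (α β : Prop) (v : P.V) (hx : v ≠ P.x)
    (hy : v ≠ P.y) : v ∈ YY P X i α β ↔ hh P i v ∈ X := by
  rw [← mem_Si P X i v hx hy]
  simp [YY, hx, hy]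

theorem x_mem_YY (X : Set (CV (three P))) (i : Fin 3) (α β : Prop) :
    P.x ∈ YY P X i α β ↔ α := by
  have := x_notMem_Si P X i
  simp [YY, this, P.hxy.ne]

theorem y_mem_YY (X : Set (CV (three P))) (i : Fin 3) (α β : Prop) :
    P.y ∈ YY P X i α β ↔ β := by
  have := y_notMem_Si P X i
  simp [YY, this, P.hxy.ne']

theorem II_YY (X : Set (CV (three P))) (i : Fin 3) (α β : Prop) :
    II P (YY P X i α β) = II P (Si P X i) := by
  ext ⟨v, w⟩
  constructor
  · rintro ⟨h1, h2, h3, h4, h5, h6, h7⟩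
    refine ⟨h1, ?_, ?_, h4, h5, h6, h7⟩
    · rw [mem_Si P X i v h4 h5, ← mem_YY P X i α β v h4 h5]; exact h2
    · rw [mem_Si P X i w h6 h7, ← mem_YY P X i α β w h6 h7]; exact h3
  · rintro ⟨h1, h2, h3, h4, h5, h6, h7⟩
    refine ⟨h1, ?_, ?_, h4, h5, h6, h7⟩
    · rw [mem_YY P X i α β v h4 h5, ← mem_Si P X i v h4 h5]; exact h2
    · rw [mem_YY P X i α β w h6 h7, ← mem_Si P X i w h6 h7]; exact h3

theorem dl_congr {V W : Type} {Y : Set V} {X : Set W} {v w : V} {p q : W} (h1 : v ∈ Y ↔ p ∈ X)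
    (h2 : w ∈ Y ↔ q ∈ X) : dl Y v w = dl X p q := by
  unfold dl
  by_cases hp : p ∈ X <;> by_cases hq : q ∈ X <;> simp [hp, hq, h1, h2]

/-- The distinctness of the four neighbours. -/
theorem distinct (hN : NoShort P.G) : P.x0 ≠ P.y0 ∧ P.x0 ≠ P.y1 ∧ P.x1 ≠ P.y0 ∧ P.x1 ≠ P.y1 := by
  refine ⟨?_, ?_, ?_, ?_⟩ <;> intro h
  · exact hN.1 P.x P.y P.y0 P.hxy P.hy0 (h ▸ P.hx0)
  · exact hN.1 P.x P.y P.y1 P.hxy P.hy1 (h ▸ P.hx0)
  · exact hN.1 P.x P.y P.y0 P.hxy P.hy0 (h ▸ P.hx1)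
  · exact hN.1 P.x P.y P.y1 P.hxy P.hy1 (h ▸ P.hx1)

theorem Si_compl (X : Set (CV (three P))) (i : Fin 3) (v : P.V) (hx : v ≠ P.x) (hy : v ≠ P.y) :
    v ∈ Si P Xᶜ i ↔ v ∉ Si P X i := by
  rw [mem_Si P Xᶜ i v hx hy, mem_Si P X i v hx hy]
  rfl

/-- Each copy is almost on one side. -/
theorem dich (hC : Cubic P.G) (h4 : P4 P.G) (X : Set (CV (three P)))
    (hX : (edgeCut (comp (three P)) X).ncard ≤ 3) (i : Fin 3) :
    (Si P X i).ncard ≤ 1 ∨ (Si P Xᶜ i).ncard ≤ 1 := by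
  have h1 := cut_le P hC (YY P X i (CV.c (i - 1) ∈ X) (CV.c (i + 1) ∈ X))
  have h2 := le_cut' P X i
  have ex := x_mem_YY P X i (CV.c (i - 1) ∈ X) (CV.c (i + 1) ∈ X)
  have ey := y_mem_YY P X i (CV.c (i - 1) ∈ X) (CV.c (i + 1) ∈ X)
  have ex0 := mem_YY P X i (CV.c (i - 1) ∈ X) (CV.c (i + 1) ∈ X) P.x0 P.hx0.ne' P.hx0y
  have ex1 := mem_YY P X i (CV.c (i - 1) ∈ X) (CV.c (i + 1) ∈ X) P.x1 P.hx1.ne' P.hx1y
  have ey0 := mem_YY P X i (CV.c (i - 1) ∈ X) (CV.c (i + 1) ∈ X) P.y0 P.hy0x P.hy0.ne'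
  have ey1 := mem_YY P X i (CV.c (i - 1) ∈ X) (CV.c (i + 1) ∈ X) P.y1 P.hy1x P.hy1.ne'
  rw [II_YY, dl_congr ex ey, dl_congr ex ex0, dl_congr ex ex1, dl_congr ey ey0,
    dl_congr ey ey1] at h1
  have t0 := dl_tri X (CV.c (i - 1)) .u (CV.c (i + 1))
  have t1 := dl_tri X (CV.c (i - 1)) (.a (i - 1)) (hh P i P.x0)
  have t2 := dl_tri X (CV.c (i - 1)) (.b (i - 1)) (hh P i P.x1)
  have t3 := dl_tri X (CV.c (i + 1)) (.a (i + 1)) (hh P i P.y0)
  have t4 := dl_tri X (CV.c (i + 1)) (.b (i + 1)) (hh P i P.y1)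
  rw [dl_symm X .u (CV.c (i + 1))] at t0
  unfold TT at h2
  rw [sub_add_cancel, add_sub_cancel_right] at h2
  have hcut : (edgeCut P.G (YY P X i (CV.c (i - 1) ∈ X) (CV.c (i + 1) ∈ X))).ncard ≤ 3 := by
    omega
  rcases h4 _ hcut with h | h
  · left
    refine le_trans (Set.ncard_le_ncard ?_ (Set.toFinite _)) h
    intro v hv
    exact Or.inr (Or.inr hv)
  · right
    refine le_trans (Set.ncard_le_ncard ?_ (Set.toFinite _)) h
    rintro v ⟨hx, hy, hv⟩
    intro hv'
    rw [mem_YY P X i _ _ v hx hy, hh_eq P i v hx hy] at hv'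
    exact hv hv'

/-- The number of the four ends in `X`. -/
noncomputable def BB (X : Set (CV (three P))) (i : Fin 3) : ℕ :=
  bt X (hh P i P.x0) + bt X (hh P i P.x1) + bt X (hh P i P.y0) + bt X (hh P i P.y1)

theorem dl_out {V W : Type} {Y : Set V} {X : Set W} {v w : V} {q : W} (h1 : v ∉ Y)
    (h2 : w ∈ Y ↔ q ∈ X) : dl Y v w = bt X q := by
  unfold dl bt
  by_cases hq : q ∈ X <;> simp [hq, h1, h2]

theorem small1 (hC : Cubic P.G) (X : Set (CV (three P))) (i : Fin 3)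
    (h : (Si P X i).ncard ≤ 1) :
    3 * (Si P X i).ncard ≤ (II P (Si P X i)).ncard + BB P X i := by
  rcases Nat.lt_or_ge (Si P X i).ncard 1 with h0 | h0
  · omega
  · have h1 : (Si P X i).ncard = 1 := by omega
    obtain ⟨v, hv⟩ := Set.ncard_eq_one.mp h1
    have h2 := cut_le P hC (Si P X i)
    have h3 : (edgeCut P.G (Si P X i)).ncard = 3 := by rw [hv]; exact cut_single hC v
    have nx := x_notMem_Si P X i
    have ny := y_notMem_Si P X i
    rw [dl_out nx (mem_Si P X i P.x0 P.hx0.ne' P.hx0y),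
      dl_out nx (mem_Si P X i P.x1 P.hx1.ne' P.hx1y),
      dl_out ny (mem_Si P X i P.y0 P.hy0x P.hy0.ne'),
      dl_out ny (mem_Si P X i P.y1 P.hy1x P.hy1.ne')] at h2
    have h5 : dl (Si P X i) P.x P.y = 0 := by
      unfold dl
      simp [nx, ny]
    unfold BB
    omega

theorem small2 (hN : NoShort P.G) (X : Set (CV (three P))) (i : Fin 3)
    (h : (Si P X i).ncard ≤ 1) : BB P X i ≤ (Si P X i).ncard := by
  obtain ⟨d1, d2, d3, d4⟩ := distinct P hN
  have hs := (Set.ncard_le_one (Set.toFinite _)).mp h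
  have m0 := mem_Si P X i P.x0 P.hx0.ne' P.hx0y
  have m1 := mem_Si P X i P.x1 P.hx1.ne' P.hx1y
  have m2 := mem_Si P X i P.y0 P.hy0x P.hy0.ne'
  have m3 := mem_Si P X i P.y1 P.hy1x P.hy1.ne'
  by_cases hne : (Si P X i).Nonempty
  · have h1 : 1 ≤ (Si P X i).ncard := (Set.ncard_pos (Set.toFinite _)).mpr hne
    refine le_trans ?_ h1
    unfold BB bt
    by_cases c0 : hh P i P.x0 ∈ X
    · have c1 : hh P i P.x1 ∉ X := fun c => P.hx01 (hs _ (m0.mpr c0) _ (m1.mpr c))
      have c2 : hh P i P.y0 ∉ X := fun c => d1 (hs _ (m0.mpr c0) _ (m2.mpr c))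
      have c3 : hh P i P.y1 ∉ X := fun c => d2 (hs _ (m0.mpr c0) _ (m3.mpr c))
      simp [c0, c1, c2, c3]
    by_cases c1 : hh P i P.x1 ∈ X
    · have c2 : hh P i P.y0 ∉ X := fun c => d3 (hs _ (m1.mpr c1) _ (m2.mpr c))
      have c3 : hh P i P.y1 ∉ X := fun c => d4 (hs _ (m1.mpr c1) _ (m3.mpr c))
      simp [c0, c1, c2, c3]
    by_cases c2 : hh P i P.y0 ∈ X
    · have c3 : hh P i P.y1 ∉ X := fun c => P.hy01 (hs _ (m2.mpr c2) _ (m3.mpr c))
      simp [c0, c1, c2, c3]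
    simp only [c0, c1, c2, if_false, zero_add]
    split_ifs <;> simp
  · have c0 : hh P i P.x0 ∉ X := fun c => hne ⟨_, m0.mpr c⟩
    have c1 : hh P i P.x1 ∉ X := fun c => hne ⟨_, m1.mpr c⟩
    have c2 : hh P i P.y0 ∉ X := fun c => hne ⟨_, m2.mpr c⟩
    have c3 : hh P i P.y1 ∉ X := fun c => hne ⟨_, m3.mpr c⟩
    unfold BB bt
    simp [c0, c1, c2, c3]

theorem II_compl (X : Set (CV (three P))) (i : Fin 3) :
    (II P (Si P Xᶜ i)).ncard = (II P (Si P X i)).ncard := by
  have : II P (Si P Xᶜ i) = Prod.swap '' II P (Si P X i) := by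
    ext ⟨v, w⟩
    constructor
    · rintro ⟨h1, h2, h3, h4, h5, h6, h7⟩
      refine ⟨(w, v), ⟨h1.symm, ?_, ?_, h6, h7, h4, h5⟩, rfl⟩
      · by_contra hc
        exact h3 ((Si_compl P X i w h6 h7).mpr hc)
      · exact (Si_compl P X i v h4 h5).mp h2
    · rintro ⟨⟨w', v'⟩, ⟨h1, h2, h3, h4, h5, h6, h7⟩, he⟩
      simp only [Prod.swap_prod_mk, Prod.mk.injEq] at he
      obtain ⟨rfl, rfl⟩ := he
      refine ⟨h1.symm, ?_, ?_, h6, h7, h4, h5⟩
      · exact (Si_compl P X i _ h6 h7).mpr h3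
      · intro hc
        exact (Si_compl P X i _ h4 h5).mp hc h2
  rw [this, Set.InjOn.ncard_image Prod.swap_injective.injOn]

theorem BB_compl (X : Set (CV (three P))) (i : Fin 3) : BB P Xᶜ i + BB P X i = 4 := by
  unfold BB
  have := bt_compl X (hh P i P.x0)
  have := bt_compl X (hh P i P.x1)
  have := bt_compl X (hh P i P.y0)
  have := bt_compl X (hh P i P.y1)
  omega

/-- One copy almost in `X`, the other two almost outside: impossible. -/
theorem mixed (hC : Cubic P.G) (hN : NoShort P.G) (X : Set (CV (three P)))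
    (hX : (edgeCut (comp (three P)) X).ncard ≤ 3) (i : Fin 3)
    (h0 : (Si P Xᶜ i).ncard ≤ 1) (h1 : (Si P X (i + 1)).ncard ≤ 1)
    (h2 : (Si P X (i - 1)).ncard ≤ 1) : False := by
  have h := le_cut' P X i
  have a1 := small1 P hC Xᶜ i h0
  have a2 := small2 P hN Xᶜ i h0
  have a3 := II_compl P X i
  have a4 := BB_compl P X i
  have b1 := small1 P hC X _ h1
  have b2 := small2 P hN X _ h1
  have c1 := small1 P hC X _ h2
  have c2 := small2 P hN X _ h2
  unfold TT at h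
  have e1 : i - 1 - 1 = i + 1 := by fin_cases i <;> decide
  have e2 : i + 1 + 1 = i - 1 := by fin_cases i <;> decide
  rw [sub_add_cancel, add_sub_cancel_right, e1, e2] at h
  have p1 := dl_le' X (.a (i - 1)) (hh P i P.x0)
  have p2 := dl_le X (.a (i - 1)) (hh P (i + 1) P.y0)
  have p3 := dl_le' X (.b (i - 1)) (hh P i P.x1)
  have p4 := dl_le X (.b (i - 1)) (hh P (i + 1) P.y1)
  have p5 := dl_le' X (.a (i + 1)) (hh P i P.y0)
  have p6 := dl_le X (.a (i + 1)) (hh P (i - 1) P.x0)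
  have p7 := dl_le' X (.b (i + 1)) (hh P i P.y1)
  have p8 := dl_le X (.b (i + 1)) (hh P (i - 1) P.x1)
  unfold BB at a1 a2 a4 b1 b2 c1 c2
  omega

/-- Classification of the vertices. -/
def vt : CV (three P) → Option (Fin 3 × Fin 4)
  | .h i _ _ _ => some (i, 0)
  | .a i => some (i, 1)
  | .b i => some (i, 2)
  | .c i => some (i, 3)
  | .u => none

theorem vfib (X : Set (CV (three P))) (p : CV (three P)) (t : Option (Fin 3 × Fin 4))
    (h : ∀ q, vt P q = t → q = p) : {z ∈ X | vt P z = t}.ncard ≤ bt X p := by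
  classical
  unfold bt
  split_ifs with hp
  · have : {z ∈ X | vt P z = t} ⊆ {p} := fun z hz => h z hz.2
    have := Set.ncard_le_ncard this (Set.toFinite _)
    rwa [Set.ncard_singleton] at this
  · have : {z ∈ X | vt P z = t} = ∅ := by
      ext z
      constructor
      · rintro ⟨hz1, hz2⟩
        exact absurd (h z hz2 ▸ hz1) hp
      · exact fun h => absurd h (Set.notMem_empty _)
    rw [this, Set.ncard_empty]

theorem card_le (X : Set (CV (three P))) :
    X.ncard ≤ bt X .u +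
      ((Si P X 0).ncard + bt X (.a 0) + bt X (.b 0) + bt X (.c 0)) +
      ((Si P X 1).ncard + bt X (.a 1) + bt X (.b 1) + bt X (.c 1)) +
      ((Si P X 2).ncard + bt X (.a 2) + bt X (.b 2) + bt X (.c 2)) := by
  classical
  have hfin : X.Finite := Set.toFinite _
  have h := Finset.card_eq_sum_card_fiberwise (f := vt P) (s := hfin.toFinset)
    (t := (Finset.univ : Finset (Option (Fin 3 × Fin 4)))) (fun _ _ => Finset.mem_univ _)
  have hc : ∀ t, #{z ∈ hfin.toFinset | vt P z = t} = {z ∈ X | vt P z = t}.ncard := by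
    intro t
    rw [← Set.ncard_coe_finset]
    congr 1
    ext z
    simp
  simp only [hc] at h
  rw [← Set.ncard_eq_toFinset_card _ hfin, Fintype.sum_option, Fintype.sum_prod_type] at h
  rw [h, Fin.sum_univ_three, Fin.sum_univ_four, Fin.sum_univ_four, Fin.sum_univ_four]
  have k0 : ∀ i, {z ∈ X | vt P z = some (i, 0)}.ncard ≤ (Si P X i).ncard := by
    intro i
    have : {z ∈ X | vt P z = some (i, 0)} ⊆ hh P i '' Si P X i := by
      rintro z ⟨hz1, hz2⟩
      cases z with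
      | h j v hx hy =>
        simp only [vt, Option.some.injEq, Prod.mk.injEq, and_true] at hz2
        subst hz2
        exact ⟨v, ⟨hx, hy, hz1⟩, hh_eq P j v hx hy⟩
      | a j => simp [vt] at hz2
      | b j => simp [vt] at hz2
      | c j => simp [vt] at hz2
      | u => simp [vt] at hz2
    exact le_trans (Set.ncard_le_ncard this (Set.toFinite _)) (Set.ncard_image_le (Set.toFinite _))
  have k1 : ∀ i, {z ∈ X | vt P z = some (i, 1)}.ncard ≤ bt X (.a i) := by
    intro i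
    apply vfib
    intro q hq
    cases q <;> simp_all [vt]
  have k2 : ∀ i, {z ∈ X | vt P z = some (i, 2)}.ncard ≤ bt X (.b i) := by
    intro i
    apply vfib
    intro q hq
    cases q <;> simp_all [vt]
  have k3 : ∀ i, {z ∈ X | vt P z = some (i, 3)}.ncard ≤ bt X (.c i) := by
    intro i
    apply vfib
    intro q hq
    cases q <;> simp_all [vt]
  have k4 : {z ∈ X | vt P z = none}.ncard ≤ bt X .u := by
    apply vfib
    intro q hq
    cases q <;> simp_all [vt]
  have := k0 0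
  have := k0 1
  have := k0 2
  have := k1 0
  have := k1 1
  have := k1 2
  have := k2 0
  have := k2 1
  have := k2 2
  have := k3 0
  have := k3 1
  have := k3 2
  omega

/-- All copies almost outside of `X`. -/
theorem allSmall (hC : Cubic P.G) (hN : NoShort P.G) (X : Set (CV (three P)))
    (hX : (edgeCut (comp (three P)) X).ncard ≤ 3)
    (h0 : ∀ i, (Si P X i).ncard ≤ 1) : X.ncard ≤ 1 := by
  refine le_trans (card_le P X) ?_
  have h := le_trans (le_cut P X) hX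
  have a0 := small1 P hC X _ (h0 0)
  have b0 := small2 P hN X _ (h0 0)
  have a1 := small1 P hC X _ (h0 1)
  have b1 := small2 P hN X _ (h0 1)
  have a2 := small1 P hC X _ (h0 2)
  have b2 := small2 P hN X _ (h0 2)
  have e1 : (0 : Fin 3) - 1 = 2 := rfl
  have e2 : (0 : Fin 3) + 1 = 1 := rfl
  have e3 : (1 : Fin 3) - 1 = 0 := rfl
  have e4 : (1 : Fin 3) + 1 = 2 := rfl
  have e5 : (2 : Fin 3) - 1 = 1 := rfl
  have e6 : (2 : Fin 3) + 1 = 0 := rfl
  unfold TT at h
  rw [e1, e2, e3, e4, e5, e6] at h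
  unfold BB at a0 a1 a2 b0 b1 b2
  have lu := bt_le X (.u : CV (three P))
  -- leaf edges
  have p1 := dl_le X (.a 0) (hh P 1 P.x0)
  have p2 := dl_le X (.a 0) (hh P 2 P.y0)
  have p3 := dl_le X (.b 0) (hh P 1 P.x1)
  have p4 := dl_le X (.b 0) (hh P 2 P.y1)
  have p5 := dl_le X (.a 1) (hh P 2 P.x0)
  have p6 := dl_le X (.a 1) (hh P 0 P.y0)
  have p7 := dl_le X (.b 1) (hh P 2 P.x1)
  have p8 := dl_le X (.b 1) (hh P 0 P.y1)
  have p9 := dl_le X (.a 2) (hh P 0 P.x0)
  have p10 := dl_le X (.a 2) (hh P 1 P.y0)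
  have p11 := dl_le X (.b 2) (hh P 0 P.x1)
  have p12 := dl_le X (.b 2) (hh P 1 P.y1)
  have q1 := dl_le X (.c 0) (.a 0)
  have q2 := dl_le X (.c 0) (.b 0)
  have q4 := dl_le X (.c 1) (.a 1)
  have q5 := dl_le X (.c 1) (.b 1)
  have q7 := dl_le X (.c 2) (.a 2)
  have q8 := dl_le X (.c 2) (.b 2)
  rcases Nat.eq_zero_or_pos (bt X .u) with hu | hu
  · have r0 := dl_le X (.c 0) (.u : CV (three P))
    have r1 := dl_le X (.c 1) (.u : CV (three P))
    have r2 := dl_le X (.c 2) (.u : CV (three P))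
    rcases Nat.eq_zero_or_pos (bt X (.c 0) + bt X (.c 1) + bt X (.c 2)) with hc | hc
    · have s1 := dl_le' X (.c 0) (.a 0)
      have s2 := dl_le' X (.c 0) (.b 0)
      have s4 := dl_le' X (.c 1) (.a 1)
      have s5 := dl_le' X (.c 1) (.b 1)
      have s7 := dl_le' X (.c 2) (.a 2)
      have s8 := dl_le' X (.c 2) (.b 2)
      rcases Nat.eq_zero_or_pos (bt X (.a 0) + bt X (.b 0) + bt X (.a 1) + bt X (.b 1) +
        bt X (.a 2) + bt X (.b 2)) with ha | ha
      · have t1 := dl_le' X (.a 0) (hh P 1 P.x0)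
        have t2 := dl_le' X (.a 0) (hh P 2 P.y0)
        have t3 := dl_le' X (.b 0) (hh P 1 P.x1)
        have t4 := dl_le' X (.b 0) (hh P 2 P.y1)
        have t5 := dl_le' X (.a 1) (hh P 2 P.x0)
        have t6 := dl_le' X (.a 1) (hh P 0 P.y0)
        have t7 := dl_le' X (.b 1) (hh P 2 P.x1)
        have t8 := dl_le' X (.b 1) (hh P 0 P.y1)
        have t9 := dl_le' X (.a 2) (hh P 0 P.x0)
        have t10 := dl_le' X (.a 2) (hh P 1 P.y0)
        have t11 := dl_le' X (.b 2) (hh P 0 P.x1)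
        have t12 := dl_le' X (.b 2) (hh P 1 P.y1)
        linarith
      · by_contra hcon
        push Not at hcon
        linarith
    · by_contra hcon
      push Not at hcon
      linarith
  · have r0 := dl_le' X (.c 0) (.u : CV (three P))
    have r1 := dl_le' X (.c 1) (.u : CV (three P))
    have r2 := dl_le' X (.c 2) (.u : CV (three P))
    by_contra hcon
    push Not at hcon
    linarith

end composite

theorem aux (P : Piece) (hC : Cubic P.G) (hN : NoShort P.G) (h4 : P4 P.G) :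
    P4 (comp (three P)) := by
  intro X hX
  have hX' : (edgeCut (comp (three P)) Xᶜ).ncard ≤ 3 := by rwa [edgeCut_compl]
  have hcc : (Xᶜ)ᶜ = X := compl_compl X
  have d := dich P hC h4 X hX
  have hall : ∀ s : Fin 3 → Bool, s = (fun _ => true) ∨ s = (fun _ => false) ∨
      (∃ i, s i = false ∧ s (i + 1) = true ∧ s (i - 1) = true) ∨
      (∃ i, s i = true ∧ s (i + 1) = false ∧ s (i - 1) = false) := by decide
  classical
  have key := hall (fun i => decide ((Si P X i).ncard ≤ 1))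
  have kt : ∀ i, decide ((Si P X i).ncard ≤ 1) = false → (Si P Xᶜ i).ncard ≤ 1 := by
    intro i hi
    rcases d i with h | h
    · simp only [decide_eq_false_iff_not] at hi
      exact absurd h hi
    · exact h
  have ks : ∀ i, decide ((Si P X i).ncard ≤ 1) = true → (Si P X i).ncard ≤ 1 :=
    fun i hi => of_decide_eq_true hi
  rcases key with h | h | ⟨i, h1, h2, h3⟩ | ⟨i, h1, h2, h3⟩
  · left
    exact allSmall P hC hN X hX (fun i => ks i (congrFun h i))
  · right
    exact allSmall P hC hN Xᶜ hX' (fun i => kt i (congrFun h i))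
  · exact (mixed P hC hN X hX i (kt i h1) (ks _ h2) (ks _ h3)).elim
  · refine (mixed P hC hN Xᶜ hX' i ?_ (kt _ h2) (kt _ h3)).elim
    rw [hcc]
    exact ks i h1

theorem main : NextP4 := fun P hC hN h4 => aux P hC hN h4

end Pool.Agent.Q279.SN.JP4
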