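import Pool.Agent.Q279.SN.Stm

/-!
# Job SN-PET: the Petersen graph as a piece
-/

namespace Pool.Agent.Q279.SN.JPET

open Finset

/-- Adjacency in the Petersen graph (outer cycle, spokes, inner pentagram). -/
def pa (v w : Fin 10) : Bool := Nat.testBit 257617904308990774908043727922 (10 * v.1 + w.1)

theorem pa_symm : ∀ v w, pa v w = true → pa w v = true := by decide +kernel

theorem pa_irr : ∀ v, ¬ pa v v = true := by decide +kernel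

/-- The Petersen graph. -/
def Pet : SimpleGraph (Fin 10) where
  Adj v w := pa v w = true
  symm := ⟨fun v w h => pa_symm v w h⟩
  loopless := ⟨fun v h => pa_irr v h⟩

instance : DecidableRel Pet.Adj := fun v w => inferInstanceAs (Decidable (pa v w = true))

theorem cubic : Cubic Pet := by
  intro v
  have h : Pet.neighborSet v = ↑(univ.filter (fun w => pa v w = true)) := by
    ext w
    simp [Pet]
  rw [h, Set.ncard_coe_finset]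
  clear h
  revert v
  decide +kernel

theorem noShort : NoShort Pet := by
  constructor
  · decide +kernel
  · decide +kernel

theorem cuts : ∀ X : Finset (Fin 10),
    ((univ : Finset (Fin 10 × Fin 10)).filter
      (fun p => pa p.1 p.2 = true ∧ p.1 ∈ X ∧ p.2 ∉ X)).card ≤ 3 → X.card ≤ 1 ∨ Xᶜ.card ≤ 1 := by
  decide +kernel

theorem p4 : P4 Pet := by
  classical
  intro X hX
  have e1 : edgeCut Pet X = (fun p : Fin 10 × Fin 10 => s(p.1, p.2)) ''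
      ↑((univ : Finset (Fin 10 × Fin 10)).filter
        (fun p => pa p.1 p.2 = true ∧ p.1 ∈ X.toFinset ∧ p.2 ∉ X.toFinset)) := by
    ext e
    simp only [Set.mem_image, Finset.coe_filter, Finset.mem_univ, true_and, Set.mem_toFinset,
      Set.mem_ofPred_eq]
    constructor
    · rintro ⟨v, w, h1, h2, h3, rfl⟩
      exact ⟨(v, w), ⟨h1, h2, h3⟩, rfl⟩
    · rintro ⟨⟨v, w⟩, ⟨h1, h2, h3⟩, rfl⟩
      exact ⟨v, w, h1, h2, h3, rfl⟩
  rw [e1, Set.InjOn.ncard_image, Set.ncard_coe_finset] at hX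
  · have := cuts X.toFinset hX
    rw [← Set.toFinset_compl, ← Set.ncard_eq_toFinset_card', ← Set.ncard_eq_toFinset_card'] at this
    exact this
  · rintro ⟨v, w⟩ h ⟨v', w'⟩ h' he
    simp only [Finset.coe_filter, Finset.mem_univ, true_and, Set.mem_toFinset,
      Set.mem_ofPred_eq] at h h'
    simp only [Sym2.eq_iff] at he
    rcases he with ⟨rfl, rfl⟩ | ⟨rfl, rfl⟩
    · rfl
    · exact absurd h.2.1 h'.2.2

/-- Exactly one of the three. -/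
def one3 (a b c : Bool) : Bool := (a && !b && !c) || (!a && b && !c) || (!a && !b && c)

/-- The six perfect matchings of the Petersen graph. -/
theorem mat : ∀ s0 s1 s2 s3 s4 o0 o1 o2 o3 o4 : Bool,
    one3 s0 o0 o4 = true → one3 s1 o1 o0 = true → one3 s2 o2 o1 = true →
    one3 s3 o3 o2 = true → one3 s4 o4 o3 = true →
    (∀ n0 n1 n2 n3 n4 : Bool, one3 s0 n0 n3 = true → one3 s1 n1 n4 = true →
      one3 s2 n2 n0 = true → one3 s3 n3 n1 = true → one3 s4 n4 n2 = true →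
      ((s0 && s1 && s2 && s3 && s4) || (s0 && o1 && n1 && n2 && o3) ||
        (s1 && o2 && n2 && n3 && o4) || (s2 && o3 && n3 && n4 && o0) ||
        (s3 && o4 && n4 && n0 && o1) || (s4 && o0 && n0 && n1 && o2)) = true) := by
  decide +kernel

theorem pair {a b c d : ℕ} (h : symmDiff ({a} : Finset ℕ) {b} = symmDiff {c} {d})
    (h2 : (symmDiff ({a} : Finset ℕ) {b}).card = 2) :
    a ≠ b ∧ ((a = c ∧ b = d) ∨ (a = d ∧ b = c)) := by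
  have hab : a ≠ b := by
    rintro rfl
    simp at h2
  have hcd : c ≠ d := by
    rintro rfl
    rw [h] at h2
    simp at h2
  refine ⟨hab, ?_⟩
  have ha : a ∈ symmDiff ({c} : Finset ℕ) {d} := by
    rw [← h, Finset.mem_symmDiff]
    simp [hab]
  have hb : b ∈ symmDiff ({c} : Finset ℕ) {d} := by
    rw [← h, Finset.mem_symmDiff]
    simp [hab.symm]
  rw [Finset.mem_symmDiff] at ha hb
  simp only [Finset.mem_singleton] at ha hb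
  omega

theorem K (A0 A1 A2 A3 A4 B0 B1 B2 B3 B4 P0 P1 P2 P3 P4 : Finset ℕ)
    (a0 : A0.card = 1) (a1 : A1.card = 1) (a2 : A2.card = 1) (a3 : A3.card = 1)
    (a4 : A4.card = 1) (b0 : B0.card = 1) (b1 : B1.card = 1) (b2 : B2.card = 1)
    (b3 : B3.card = 1) (b4 : B4.card = 1) (p0 : P0.card = 2) (p1 : P1.card = 2)
    (p2 : P2.card = 2) (p3 : P3.card = 2) (p4 : P4.card = 2)
    (h0 : P0 = symmDiff A4 A0) (h1 : P1 = symmDiff A0 A1) (h2 : P2 = symmDiff A1 A2)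
    (h3 : P3 = symmDiff A2 A3) (h4 : P4 = symmDiff A3 A4)
    (k0 : P0 = symmDiff B0 B3) (k1 : P1 = symmDiff B1 B4) (k2 : P2 = symmDiff B2 B0)
    (k3 : P3 = symmDiff B3 B1) (k4 : P4 = symmDiff B4 B2) : False := by
  obtain ⟨a0, rfl⟩ := Finset.card_eq_one.mp a0
  obtain ⟨a1, rfl⟩ := Finset.card_eq_one.mp a1
  obtain ⟨a2, rfl⟩ := Finset.card_eq_one.mp a2
  obtain ⟨a3, rfl⟩ := Finset.card_eq_one.mp a3
  obtain ⟨a4, rfl⟩ := Finset.card_eq_one.mp a4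
  obtain ⟨b0, rfl⟩ := Finset.card_eq_one.mp b0
  obtain ⟨b1, rfl⟩ := Finset.card_eq_one.mp b1
  obtain ⟨b2, rfl⟩ := Finset.card_eq_one.mp b2
  obtain ⟨b3, rfl⟩ := Finset.card_eq_one.mp b3
  obtain ⟨b4, rfl⟩ := Finset.card_eq_one.mp b4
  rw [h0] at p0 k0
  rw [h1] at p1 k1
  rw [h2] at p2 k2
  rw [h3] at p3 k3
  rw [h4] at p4 k4
  obtain ⟨n0, q0⟩ := pair k0 p0
  obtain ⟨n1, q1⟩ := pair k1 p1
  obtain ⟨n2, q2⟩ := pair k2 p2
  obtain ⟨n3, q3⟩ := pair k3 p3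
  obtain ⟨n4, q4⟩ := pair k4 p4
  clear h0 h1 h2 h3 h4 k0 k1 k2 k3 k4 p0 p1 p2 p3 p4
  rcases q0 with ⟨q0, r0⟩ | ⟨q0, r0⟩ <;> rcases q1 with ⟨q1, r1⟩ | ⟨q1, r1⟩ <;>
    rcases q2 with ⟨q2, r2⟩ | ⟨q2, r2⟩ <;> rcases q3 with ⟨q3, r3⟩ | ⟨q3, r3⟩ <;>
    rcases q4 with ⟨q4, r4⟩ | ⟨q4, r4⟩ <;> omega

theorem tri_rot {A B C : Finset ℕ} (h : Tri A B C) : Tri B C A := by
  refine ⟨?_, ?_⟩
  · rw [h.1, symmDiff_comm B C, symmDiff_symmDiff_cancel_left]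
  · have := h.2
    tauto

theorem tri_swap {A B C : Finset ℕ} (h : Tri A B C) : Tri A C B := by
  refine ⟨?_, ?_⟩
  · rw [h.1, symmDiff_comm]
  · have := h.2
    tauto

theorem tri_one {A B C : Finset ℕ} (h : Tri A B C) :
    one3 (decide (A.card = 2)) (decide (B.card = 2)) (decide (C.card = 2)) = true := by
  rcases h.2 with ⟨h1, h2, h3⟩ | ⟨h1, h2, h3⟩ | ⟨h1, h2, h3⟩ <;> simp [one3, h1, h2, h3]

theorem tri_two {A B C : Finset ℕ} (h : Tri A B C) (hA : A.card = 2) :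
    B.card = 1 ∧ C.card = 1 ∧ A = symmDiff B C := by
  rcases h.2 with ⟨h1, h2, h3⟩ | ⟨h1, h2, h3⟩ | ⟨h1, h2, h3⟩
  · exact ⟨h2, h3, h.1⟩
  · omega
  · omega

/-- The contradiction for one matching: `P i` at the ends of the `i`-th matching edge. -/
theorem K2 (A0 A1 A2 A3 A4 B0 B1 B2 B3 B4 P0 P1 P2 P3 P4 : Finset ℕ)
    (p0 : P0.card = 2) (p1 : P1.card = 2) (p2 : P2.card = 2) (p3 : P3.card = 2)
    (p4 : P4.card = 2) (h0 : Tri P0 A4 A0) (h1 : Tri P1 A0 A1) (h2 : Tri P2 A1 A2)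
    (h3 : Tri P3 A2 A3) (h4 : Tri P4 A3 A4)
    (k0 : Tri P0 B0 B3) (k1 : Tri P1 B1 B4) (k2 : Tri P2 B2 B0)
    (k3 : Tri P3 B3 B1) (k4 : Tri P4 B4 B2) : False := by
  obtain ⟨_, x0, y0⟩ := tri_two h0 p0
  obtain ⟨_, x1, y1⟩ := tri_two h1 p1
  obtain ⟨_, x2, y2⟩ := tri_two h2 p2
  obtain ⟨_, x3, y3⟩ := tri_two h3 p3
  obtain ⟨_, x4, y4⟩ := tri_two h4 p4
  obtain ⟨z0, _, w0⟩ := tri_two k0 p0
  obtain ⟨z1, _, w1⟩ := tri_two k1 p1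
  obtain ⟨z2, _, w2⟩ := tri_two k2 p2
  obtain ⟨z3, _, w3⟩ := tri_two k3 p3
  obtain ⟨z4, _, w4⟩ := tri_two k4 p4
  exact K A0 A1 A2 A3 A4 B0 B1 B2 B3 B4 P0 P1 P2 P3 P4 x0 x1 x2 x3 x4 z0 z1 z2 z3 z4 p0 p1 p2 p3
    p4 y0 y1 y2 y3 y4 w0 w1 w2 w3 w4

/-- No labelling which is good everywhere, in terms of the fifteen labels. -/
theorem K3 (s0 s1 s2 s3 s4 o0 o1 o2 o3 o4 n0 n1 n2 n3 n4 : Finset ℕ)
    (v0 : Tri s0 o0 o4) (v1 : Tri s1 o1 o0) (v2 : Tri s2 o2 o1) (v3 : Tri s3 o3 o2)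
    (v4 : Tri s4 o4 o3) (w0 : Tri s0 n0 n3) (w1 : Tri s1 n1 n4) (w2 : Tri s2 n2 n0)
    (w3 : Tri s3 n3 n1) (w4 : Tri s4 n4 n2) : False := by
  have h := mat _ _ _ _ _ _ _ _ _ _ (tri_one v0) (tri_one v1) (tri_one v2) (tri_one v3)
    (tri_one v4) _ _ _ _ _ (tri_one w0) (tri_one w1) (tri_one w2) (tri_one w3) (tri_one w4)
  simp only [Bool.or_eq_true, Bool.and_eq_true, decide_eq_true_eq] at h
  -- the rotated matching with index `i`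
  have key : ∀ s0 s1 s2 s3 s4 o0 o1 o2 o3 o4 n0 n1 n2 n3 n4 : Finset ℕ,
      Tri s0 o0 o4 → Tri s1 o1 o0 → Tri s2 o2 o1 → Tri s3 o3 o2 → Tri s4 o4 o3 →
      Tri s0 n0 n3 → Tri s1 n1 n4 → Tri s2 n2 n0 → Tri s3 n3 n1 → Tri s4 n4 n2 →
      s0.card = 2 → o1.card = 2 → n1.card = 2 → n2.card = 2 → o3.card = 2 → False := by
    intro s0 s1 s2 s3 s4 o0 o1 o2 o3 o4 n0 n1 n2 n3 n4 v0 v1 v2 v3 v4 w0 w1 w2 w3 w4 c0 c1 c2 c3 c4
    exact K2 o0 s1 n4 s4 o4 n3 s2 s3 n0 o2 s0 o1 n1 n2 o3 c0 c1 c2 c3 c4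
      (tri_swap v0) (tri_rot v1) (tri_rot (tri_rot (tri_swap w1))) (tri_rot (tri_swap w4))
      (tri_rot (tri_rot v4)) (tri_swap w0) (tri_rot (tri_rot v2)) (tri_rot (tri_rot w3))
      (tri_rot w2) (tri_rot v3)
  rcases h with (((((h | h) | h) | h) | h) | h)
  · obtain ⟨⟨⟨⟨c0, c1⟩, c2⟩, c3⟩, c4⟩ := h
    exact K2 o0 o1 o2 o3 o4 n0 n1 n2 n3 n4 s0 s1 s2 s3 s4 c0 c1 c2 c3 c4 (tri_swap v0)
      (tri_swap v1) (tri_swap v2) (tri_swap v3) (tri_swap v4) w0 w1 w2 w3 w4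
  · obtain ⟨⟨⟨⟨c0, c1⟩, c2⟩, c3⟩, c4⟩ := h
    exact key s0 s1 s2 s3 s4 o0 o1 o2 o3 o4 n0 n1 n2 n3 n4 v0 v1 v2 v3 v4 w0 w1 w2 w3 w4
      c0 c1 c2 c3 c4
  · obtain ⟨⟨⟨⟨c0, c1⟩, c2⟩, c3⟩, c4⟩ := h
    exact key s1 s2 s3 s4 s0 o1 o2 o3 o4 o0 n1 n2 n3 n4 n0 v1 v2 v3 v4 v0 w1 w2 w3 w4 w0
      c0 c1 c2 c3 c4
  · obtain ⟨⟨⟨⟨c0, c1⟩, c2⟩, c3⟩, c4⟩ := h
    exact key s2 s3 s4 s0 s1 o2 o3 o4 o0 o1 n2 n3 n4 n0 n1 v2 v3 v4 v0 v1 w2 w3 w4 w0 w1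
      c0 c1 c2 c3 c4
  · obtain ⟨⟨⟨⟨c0, c1⟩, c2⟩, c3⟩, c4⟩ := h
    exact key s3 s4 s0 s1 s2 o3 o4 o0 o1 o2 n3 n4 n0 n1 n2 v3 v4 v0 v1 v2 w3 w4 w0 w1 w2
      c0 c1 c2 c3 c4
  · obtain ⟨⟨⟨⟨c0, c1⟩, c2⟩, c3⟩, c4⟩ := h
    exact key s4 s0 s1 s2 s3 o4 o0 o1 o2 o3 n4 n0 n1 n2 n3 v4 v0 v1 v2 v3 w4 w0 w1 w2 w3
      c0 c1 c2 c3 c4

theorem tri_of {V : Type} {G : SimpleGraph V} {L : V → V → Finset ℕ} {v w1 w2 w3 : V}
    (h : Nbr3 G v w1 w2 w3) (hV : ValidAt G L v) (hG : GoodAt G L v) :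
    Tri (L v w1) (L v w2) (L v w3) := by
  refine ⟨(hV w1 w2 w3 h).2, ?_⟩
  obtain ⟨z1, z2, z3, hz, c1, c2, c3⟩ := hG
  have e1 : z1 = w1 ∨ z1 = w2 ∨ z1 = w3 := (h.2.2.2 z1).mp ((hz.2.2.2 z1).mpr (Or.inl rfl))
  have e2 : z2 = w1 ∨ z2 = w2 ∨ z2 = w3 :=
    (h.2.2.2 z2).mp ((hz.2.2.2 z2).mpr (Or.inr (Or.inl rfl)))
  have e3 : z3 = w1 ∨ z3 = w2 ∨ z3 = w3 :=
    (h.2.2.2 z3).mp ((hz.2.2.2 z3).mpr (Or.inr (Or.inr rfl)))
  obtain ⟨h12, h13, h23, _⟩ := h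
  obtain ⟨d12, d13, d23, _⟩ := hz
  rcases e1 with rfl | rfl | rfl <;> rcases e2 with rfl | rfl | rfl <;>
    rcases e3 with rfl | rfl | rfl <;>
    (first
      | exact absurd rfl d12
      | exact absurd rfl d13
      | exact absurd rfl d23
      | tauto)

instance (v a b c : Fin 10) : Decidable (Nbr3 Pet v a b c) := by
  unfold Nbr3
  infer_instance

theorem zef : ZEF Pet := by
  intro L hL
  by_contra hcon
  push Not at hcon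
  obtain ⟨hs, hV⟩ := hL
  have t : ∀ v w1 w2 w3, Nbr3 Pet v w1 w2 w3 → Tri (L v w1) (L v w2) (L v w3) :=
    fun v w1 w2 w3 h => tri_of h (hV v) (hcon v)
  have v0 := t 0 5 1 4 (by decide +kernel)
  have v1 := t 1 6 2 0 (by decide +kernel)
  have v2 := t 2 7 3 1 (by decide +kernel)
  have v3 := t 3 8 4 2 (by decide +kernel)
  have v4 := t 4 9 0 3 (by decide +kernel)
  have w0 := t 5 0 7 8 (by decide +kernel)
  have w1 := t 6 1 8 9 (by decide +kernel)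
  have w2 := t 7 2 9 5 (by decide +kernel)
  have w3 := t 8 3 5 6 (by decide +kernel)
  have w4 := t 9 4 6 7 (by decide +kernel)
  rw [hs 1 0] at v1
  rw [hs 2 1] at v2
  rw [hs 3 2] at v3
  rw [hs 4 3] at v4
  rw [hs 0 4] at v0
  rw [hs 5 0, hs 5 8] at w0
  rw [hs 6 1, hs 6 9] at w1
  rw [hs 7 2, hs 7 5] at w2
  rw [hs 8 3, hs 8 6] at w3
  rw [hs 9 4, hs 9 7] at w4
  exact K3 _ _ _ _ _ _ _ _ _ _ _ _ _ _ _ v0 v1 v2 v3 v4 w0 w1 w2 w3 w4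

/-- The Petersen graph with the edge `01`. -/
def PP : Piece where
  V := Fin 10
  fin := inferInstance
  G := Pet
  x := 0
  y := 1
  x0 := 4
  x1 := 5
  y0 := 2
  y1 := 6
  hxy := by decide +kernel
  hx0 := by decide +kernel
  hx1 := by decide +kernel
  hy0 := by decide +kernel
  hy1 := by decide +kernel
  hx0y := by decide
  hx1y := by decide
  hx01 := by decide
  hy0x := by decide
  hy1x := by decide
  hy01 := by decide

theorem main : PetersenShape := ⟨PP, cubic, noShort, p4, zef⟩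

end Pool.Agent.Q279.SN.JPET
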