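import Pool.Agent.Q279.SN.Stm

/-! Project SN, job Q (helper222): the finite set lemma.  Only the triangle inequalities and the parity of
the sizes of symmetric differences are used. -/

set_option autoImplicit false

namespace Pool.Agent.Q279.SN.JQ

open Finset

/-- size of a symmetric difference -/
theorem card_sd (A B : Finset ℕ) : (symmDiff A B).card + 2 * (A ∩ B).card = A.card + B.card := by
  have h1 : symmDiff A B = (A \ B) ∪ (B \ A) := rfl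
  have h2 : Disjoint (A \ B) (B \ A) := by
    rw [Finset.disjoint_left]
    intro x hx hy
    exact (Finset.mem_sdiff.1 hx).2 (Finset.mem_sdiff.1 hy).1
  have h3 := Finset.card_sdiff_add_card_inter A B
  have h4 := Finset.card_sdiff_add_card_inter B A
  rw [h1, Finset.card_union_of_disjoint h2]
  rw [Finset.inter_comm B A] at h4
  omega

theorem sd_swap {A B C : Finset ℕ} (h : A = symmDiff B C) : B = symmDiff A C ∧ C = symmDiff A B := by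
  constructor
  · rw [h]
    ext n
    simp only [Finset.mem_symmDiff]
    tauto
  · rw [h]
    ext n
    simp only [Finset.mem_symmDiff]
    tauto

theorem tri_sd {A B C : Finset ℕ} (h : A = symmDiff B C) : ∃ k, A.card + 2 * k = B.card + C.card ∧
    A.card ≤ B.card + C.card ∧ B.card ≤ A.card + C.card ∧ C.card ≤ A.card + B.card := by
  have h1 := card_sd B C
  obtain ⟨h2, h3⟩ := sd_swap h
  have h4 := card_sd A C
  have h5 := card_sd A B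
  rw [← h2] at h4
  rw [← h3] at h5
  rw [← h] at h1
  exact ⟨_, h1, by omega, by omega, by omega⟩

/-- sizes of the labels at a good vertex -/
def T3 (a b c : ℕ) : Prop :=
  (a = 2 ∧ b = 1 ∧ c = 1) ∨ (a = 1 ∧ b = 2 ∧ c = 1) ∨ (a = 1 ∧ b = 1 ∧ c = 2)

theorem n1 {a b u x y x' y' : ℕ} (h1 : T3 a x y) (h2 : T3 b x' y') (h3 : T3 a b u) :
    (u = 1 ∧ ((x + x' = 3 ∧ y + y' = 2) ∨ (x + x' = 2 ∧ y + y' = 3))) ∨
      (u = 2 ∧ x + y = 3 ∧ x' + y' = 3) := by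
  unfold T3 at h1 h2 h3
  rcases h3 with h3 | h3 | h3
  · omega
  · omega
  · omega

theorem fin_arith {x00 x01 x10 x11 x20 x21 y00 y01 y10 y11 y20 y21 u0 u1 u2 b0 z0 z1 z2 : ℕ}
    (hx00 : 1 ≤ x00 ∧ x00 ≤ 2) (hx01 : 1 ≤ x01 ∧ x01 ≤ 2) (hx10 : 1 ≤ x10 ∧ x10 ≤ 2)
    (hx11 : 1 ≤ x11 ∧ x11 ≤ 2) (hx20 : 1 ≤ x20 ∧ x20 ≤ 2) (hx21 : 1 ≤ x21 ∧ x21 ≤ 2)
    (hy00 : 1 ≤ y00 ∧ y00 ≤ 2) (hy01 : 1 ≤ y01 ∧ y01 ≤ 2) (hy10 : 1 ≤ y10 ∧ y10 ≤ 2)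
    (hy11 : 1 ≤ y11 ∧ y11 ≤ 2) (hy20 : 1 ≤ y20 ∧ y20 ≤ 2) (hy21 : 1 ≤ y21 ∧ y21 ≤ 2)
    (p0 : z0 ≠ 1) (q0 : z0 = 2 → (x00 = 2 ∧ x01 = 2) ∨ (y00 = 2 ∧ y01 = 2))
    (p1 : z1 ≠ 1) (q1 : z1 = 2 → (x10 = 2 ∧ x11 = 2) ∨ (y10 = 2 ∧ y11 = 2))
    (p2 : z2 ≠ 1) (q2 : z2 = 2 → (x20 = 2 ∧ x21 = 2) ∨ (y20 = 2 ∧ y21 = 2))
    (a0 : ∃ k, z0 + 2 * k = x00 + x01) (a1 : ∃ k, z1 + 2 * k = x10 + x11)
    (a2 : ∃ k, z2 + 2 * k = x20 + x21)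
    (b0' : ∃ k, z0 + 2 * k = y00 + y01) (b1' : ∃ k, z1 + 2 * k = y10 + y11)
    (b2' : ∃ k, z2 + 2 * k = y20 + y21)
    (c1 : ∃ k, z2 + 2 * k = z0 + u1) (c1' : z0 ≤ z2 + u1 ∧ u1 ≤ z0 + z2)
    (c2 : ∃ k, z1 + 2 * k = z0 + u2) (c2' : z0 ≤ z1 + u2 ∧ u2 ≤ z0 + z1)
    (c0 : ∃ k, u0 + 2 * k = z1 + z2) (c0' : z1 ≤ u0 + z2 ∧ z2 ≤ z1 + u0)
    (t3 : T3 b0 x11 y21)
    (t8 : T3 u0 u1 u2)
    (m1 : (u1 = 1 ∧ ((x20 + x21 = 3 ∧ y00 + y01 = 2) ∨ (x20 + x21 = 2 ∧ y00 + y01 = 3))) ∨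
      (u1 = 2 ∧ x20 + y00 = 3 ∧ x21 + y01 = 3))
    (m2 : (u2 = 1 ∧ ((x00 + x01 = 3 ∧ y10 + y11 = 2) ∨ (x00 + x01 = 2 ∧ y10 + y11 = 3))) ∨
      (u2 = 2 ∧ x00 + y10 = 3 ∧ x01 + y11 = 3)) :
    u0 = 1 ∧ b0 = 1 ∧ x10 = 2 ∧ y20 = 2 := by
  obtain ⟨k1, a0⟩ := a0
  obtain ⟨k2, a1⟩ := a1
  obtain ⟨k3, a2⟩ := a2
  obtain ⟨k4, b0'⟩ := b0'
  obtain ⟨k5, b1'⟩ := b1'
  obtain ⟨k6, b2'⟩ := b2'
  obtain ⟨k7, c1⟩ := c1
  obtain ⟨k8, c2⟩ := c2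
  obtain ⟨k9, c0⟩ := c0
  unfold T3 at t3 t8
  rcases t8 with ⟨h8a, h8b, h8c⟩ | ⟨h8a, h8b, h8c⟩ | ⟨h8a, h8b, h8c⟩
  · subst h8a h8b h8c
    rcases m1 with ⟨-, m1 | m1⟩ | ⟨m1, -, -⟩
    · rcases m2 with ⟨-, m2 | m2⟩ | ⟨m2, -, -⟩
      · omega
      · have : z0 = 0 ∨ z0 = 2 := by omega
        rcases this with h | h
        · omega
        · have := q0 h
          omega
      · omega
    · rcases m2 with ⟨-, m2 | m2⟩ | ⟨m2, -, -⟩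
      · have h0 : z0 = 3 := by omega
        have h2 : z2 = 2 := by omega
        have h1 : z1 = 2 := by omega
        have r2 := q2 h2
        have r1 := q1 h1
        omega
      · omega
      · omega
    · omega
  · subst h8a h8b h8c
    rcases m1 with ⟨m1, -⟩ | ⟨-, m1, m1'⟩
    · omega
    · rcases m2 with ⟨-, m2 | m2⟩ | ⟨m2, -, -⟩
      · have h0 : z0 = 3 := by omega
        have h1 : z1 = 2 := by omega
        have r1 := q1 h1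
        have h2 : z2 = 3 := by omega
        omega
      · have h0 : z0 = 2 := by omega
        have r0 := q0 h0
        have h2 : z2 = 2 := by omega
        have r2 := q2 h2
        have h1 : z1 = 3 := by omega
        omega
      · omega
  · subst h8a h8b h8c
    rcases m2 with ⟨m2, -⟩ | ⟨-, m2, m2'⟩
    · omega
    · rcases m1 with ⟨-, m1 | m1⟩ | ⟨m1, -, -⟩
      · have h0 : z0 = 2 := by omega
        have r0 := q0 h0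
        have h1 : z1 = 2 := by omega
        have r1 := q1 h1
        have h2 : z2 = 3 := by omega
        omega
      · have h0 : z0 = 3 := by omega
        have h2 : z2 = 2 := by omega
        have r2 := q2 h2
        have h1 : z1 = 3 := by omega
        omega
      · omega

theorem r1 {x x' y y' a b u : Finset ℕ} (e1 : a = symmDiff x y) (e2 : b = symmDiff x' y')
    (e3 : a = symmDiff b u) : symmDiff x x' = symmDiff (symmDiff y y') u := by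
  ext n
  have h1 := Finset.ext_iff.1 e1 n
  have h2 := Finset.ext_iff.1 e2 n
  have h3 := Finset.ext_iff.1 e3 n
  simp only [Finset.mem_symmDiff] at h1 h2 h3 ⊢
  tauto

theorem r0 {u0 u1 u2 z0 z1 z2 : Finset ℕ} (e : u0 = symmDiff u1 u2) (h1 : z1 = symmDiff z0 u2)
    (h2 : z2 = symmDiff z0 u1) : u0 = symmDiff z1 z2 := by
  ext n
  have h1 := Finset.ext_iff.1 h1 n
  have h2 := Finset.ext_iff.1 h2 n
  have h3 := Finset.ext_iff.1 e n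
  simp only [Finset.mem_symmDiff] at h1 h2 h3 ⊢
  tauto

/-- the lemma with all sets as variables -/
theorem core {x00 x01 x10 x11 x20 x21 y00 y01 y10 y11 y20 y21 a1 a2 b0 b1 b2 u0 u1 u2 : Finset ℕ}
    (hP0 : Pole x00 x01 y00 y01) (hP1 : Pole x10 x11 y10 y11) (hP2 : Pole x20 x21 y20 y21)
    (hx00 : x00.card = 1 ∨ x00.card = 2) (hx01 : x01.card = 1 ∨ x01.card = 2)
    (hx10 : x10.card = 1 ∨ x10.card = 2) (hx11 : x11.card = 1 ∨ x11.card = 2)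
    (hx20 : x20.card = 1 ∨ x20.card = 2) (hx21 : x21.card = 1 ∨ x21.card = 2)
    (hy00 : y00.card = 1 ∨ y00.card = 2) (hy01 : y01.card = 1 ∨ y01.card = 2)
    (hy10 : y10.card = 1 ∨ y10.card = 2) (hy11 : y11.card = 1 ∨ y11.card = 2)
    (hy20 : y20.card = 1 ∨ y20.card = 2) (hy21 : y21.card = 1 ∨ y21.card = 2)
    (t1 : Tri a1 x20 y00) (t2 : Tri a2 x00 y10) (t3 : Tri b0 x11 y21) (t4 : Tri b1 x21 y01)
    (t5 : Tri b2 x01 y11) (t6 : Tri a1 b1 u1) (t7 : Tri a2 b2 u2) (t8 : Tri u0 u1 u2) :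
    u0.card = 1 ∧ b0.card = 1 ∧ x10.card = 2 ∧ y20.card = 2 := by
  have bd : ∀ {n : ℕ}, (n = 1 ∨ n = 2) → 1 ≤ n ∧ n ≤ 2 := fun h => by omega
  obtain ⟨p0, p0', p0''⟩ := hP0
  obtain ⟨p1, p1', p1''⟩ := hP1
  obtain ⟨p2, p2', p2''⟩ := hP2
  obtain ⟨e1, c1⟩ := t1
  obtain ⟨e2, c2⟩ := t2
  obtain ⟨e3, c3⟩ := t3
  obtain ⟨e4, c4⟩ := t4
  obtain ⟨e5, c5⟩ := t5
  obtain ⟨e6, c6⟩ := t6
  obtain ⟨e7, c7⟩ := t7
  obtain ⟨e8, c8⟩ := t8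
  have hr1 : symmDiff x20 x21 = symmDiff (symmDiff x00 x01) u1 := by
    rw [p0]
    exact r1 e1 e4 e6
  have hr2 : symmDiff x10 x11 = symmDiff (symmDiff x00 x01) u2 := by
    rw [p1]
    exact r1 (e2.trans (symmDiff_comm _ _)) (e5.trans (symmDiff_comm _ _)) e7
  have hr0 : u0 = symmDiff (symmDiff x10 x11) (symmDiff x20 x21) := r0 e8 hr2 hr1
  obtain ⟨k1, v1, v1a, v1b, v1c⟩ := tri_sd hr1
  obtain ⟨k2, v2, v2a, v2b, v2c⟩ := tri_sd hr2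
  obtain ⟨k0, v0, v0a, v0b, v0c⟩ := tri_sd hr0
  obtain ⟨i0, f0, -⟩ := tri_sd p0
  obtain ⟨i1, f1, -⟩ := tri_sd p1
  obtain ⟨i2, f2, -⟩ := tri_sd p2
  have g0 := card_sd x00 x01
  have g1 := card_sd x10 x11
  have g2 := card_sd x20 x21
  have m1 := n1 c1 c4 c6
  have m2 := n1 c2 c5 c7
  exact fin_arith (bd hx00) (bd hx01) (bd hx10) (bd hx11) (bd hx20) (bd hx21) (bd hy00) (bd hy01)
    (bd hy10) (bd hy11) (bd hy20) (bd hy21)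
    p0' p0'' p1' p1'' p2' p2'' ⟨_, g0⟩ ⟨_, g1⟩ ⟨_, g2⟩ ⟨_, f0⟩ ⟨_, f1⟩ ⟨_, f2⟩
    ⟨_, v1⟩ ⟨v1b, (by omega)⟩ ⟨_, v2⟩ ⟨v2b, (by omega)⟩ ⟨_, v0⟩ ⟨v0b, (by omega)⟩ c3 c8 m1 m2

theorem main : QLemma := by
  intro X Y A B U hP hX hY t1 t2 t3 t4 t5 t6 t7 t8
  exact core (hP 0) (hP 1) (hP 2) (hX 0 0) (hX 0 1) (hX 1 0) (hX 1 1) (hX 2 0) (hX 2 1) (hY 0 0)
    (hY 0 1) (hY 1 0) (hY 1 1) (hY 2 0) (hY 2 1) t1 t2 t3 t4 t5 t6 t7 t8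

end Pool.Agent.Q279.SN.JQ
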