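import Pool.Agent.Q222.SN.Base

/-! Project SN, job REST (helper222): a labelling of the next piece restricts to the three copies. -/

set_option autoImplicit false

namespace Pool.Agent.Q279.SN.JREST

open Pool.Agent.Q222.SN

variable {P : Piece}

open Classical in
/-- the restricted labelling -/
noncomputable def MM (P : Piece) (i : Fin 3) (L : CV (three P) → CV (three P) → Finset ℕ)
    (v w : P.V) : Finset ℕ :=
  if hv : v ≠ P.x ∧ v ≠ P.y then L (.h i v hv.1 hv.2) (ff P i v w)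
  else if hw : w ≠ P.x ∧ w ≠ P.y then L (ff P i w v) (.h i w hw.1 hw.2)
  else ∅

theorem MM_in (i : Fin 3) (L : CV (three P) → CV (three P) → Finset ℕ) (v w : P.V) (hx : v ≠ P.x)
    (hy : v ≠ P.y) : MM P i L v w = L (.h i v hx hy) (ff P i v w) := by
  unfold MM
  rw [dif_pos ⟨hx, hy⟩]

theorem MM_out (i : Fin 3) (L : CV (three P) → CV (three P) → Finset ℕ) (v w : P.V)
    (hv : v = P.x ∨ v = P.y) (hx : w ≠ P.x)
    (hy : w ≠ P.y) : MM P i L v w = L (ff P i w v) (.h i w hx hy) := by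
  unfold MM
  rw [dif_neg (by tauto), dif_pos ⟨hx, hy⟩]

theorem MM_symm (i : Fin 3) (L : CV (three P) → CV (three P) → Finset ℕ)
    (hL : ∀ v w, L v w = L w v) (v w : P.V) : MM P i L v w = MM P i L w v := by
  by_cases hv : v ≠ P.x ∧ v ≠ P.y
  · by_cases hw : w ≠ P.x ∧ w ≠ P.y
    · rw [MM_in i L v w hv.1 hv.2, MM_in i L w v hw.1 hw.2, ff_h i v w hw.1 hw.2,
        ff_h i w v hv.1 hv.2, hL]
    · have hw' : w = P.x ∨ w = P.y := by tauto
      rw [MM_in i L v w hv.1 hv.2, MM_out i L w v hw' hv.1 hv.2, hL]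
  · have hv' : v = P.x ∨ v = P.y := by tauto
    by_cases hw : w ≠ P.x ∧ w ≠ P.y
    · rw [MM_in i L w v hw.1 hw.2, MM_out i L v w hv' hw.1 hw.2, hL]
    · unfold MM
      rw [dif_neg hv, dif_neg hw, dif_neg hw, dif_neg hv]

theorem main : Restrict := by
  intro P hc hn L ⟨hLs, hLv⟩ i
  change CV (three P) → CV (three P) → Finset ℕ at L
  change ∀ v w : CV (three P), L v w = L w v at hLs
  have hLv' : ∀ (v : P.V) (hx : v ≠ P.x) (hy : v ≠ P.y),
      ValidAt (comp (three P)) L (CV.h i v hx hy) := by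
    intro v hx hy
    exact hLv (CV.h i v hx hy) (by intro h; cases h) (by intro h; cases h)
  refine ⟨MM P i L, ⟨MM_symm i L hLs, ?_⟩, ?_, ?_, ?_, ?_, ?_⟩
  · intro v hx hy w1 w2 w3 h
    rw [MM_in i L v w1 hx hy, MM_in i L v w2 hx hy, MM_in i L v w3 hx hy]
    exact hLv' v hx hy _ _ _ (nbr_h hc hn h)
  · intro v hx hy
    constructor
    · rintro ⟨w1, w2, w3, h, h1, h2, h3⟩
      rw [MM_in i L v w1 hx hy] at h1
      rw [MM_in i L v w2 hx hy] at h2
      rw [MM_in i L v w3 hx hy] at h3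
      exact ⟨_, _, _, nbr_h hc hn h, h1, h2, h3⟩
    · rintro ⟨z1, z2, z3, h, h1, h2, h3⟩
      obtain ⟨w1, w2, w3, h', rfl, rfl, rfl⟩ := nbr_h' hc h
      refine ⟨w1, w2, w3, h', ?_, ?_, ?_⟩
      · rw [MM_in i L v w1 hx hy]; exact h1
      · rw [MM_in i L v w2 hx hy]; exact h2
      · rw [MM_in i L v w3 hx hy]; exact h3
  · rw [MM_out i L P.x P.x0 (Or.inl rfl) P.hx0.ne' P.hx0y, ff_x0]
  · rw [MM_out i L P.x P.x1 (Or.inl rfl) P.hx1.ne' P.hx1y, ff_x1]
  · rw [MM_out i L P.y P.y0 (Or.inr rfl) P.hy0x P.hy0.ne', ff_y0]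
  · rw [MM_out i L P.y P.y1 (Or.inr rfl) P.hy1x P.hy1.ne', ff_y1]

end Pool.Agent.Q279.SN.JREST
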