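import Pool.Agent.Q279.SN.J.Bas206

/-!
# Project SN, job ZNC
-/

namespace Pool.Agent.Q279.SN.JZNC

open Finset Pool.Agent.Q279.SN Pool.Agent.Q279.SN.JBas206

/-- the sizes at a good vertex -/
def GT (a b c : ℕ) : Prop := (a = 2 ∧ b = 1 ∧ c = 1) ∨ (a = 1 ∧ b = 2 ∧ c = 1) ∨
  (a = 1 ∧ b = 1 ∧ c = 2)

theorem good_of {V : Type} {G : SimpleGraph V} {L : V → V → Finset ℕ} {v a b c : V}
    (h : Nbr3 G v a b c) (hc : GT (L v a).card (L v b).card (L v c).card) : GoodAt G L v := by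
  obtain ⟨hab, hac, hbc, hN⟩ := h
  rcases hc with ⟨h1, h2, h3⟩ | ⟨h1, h2, h3⟩ | ⟨h1, h2, h3⟩
  · exact ⟨a, b, c, ⟨hab, hac, hbc, hN⟩, h1, h2, h3⟩
  · refine ⟨b, a, c, ⟨hab.symm, hbc, hac, fun w => ?_⟩, h2, h1, h3⟩
    rw [hN w]
    tauto
  · refine ⟨c, a, b, ⟨hac.symm, hbc.symm, hab, fun w => ?_⟩, h3, h1, h2⟩
    rw [hN w]
    tauto

theorem main : Pool.Agent.Q279.SN.JZefNC := by
  classical
  intro hH P hC hS hZ L hL hg
  have hZe := hH P hC hS L hL
  set Z := symmDiff (L P.x P.x0) (L P.x P.x1) with hZdef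
  have hNx : Nbr3 P.G P.x P.y P.x0 P.x1 := nbr3_of hC P.hxy P.hx0 P.hx1 P.hx0y.symm
    P.hx1y.symm P.hx01
  have hNy : Nbr3 P.G P.y P.x P.y0 P.y1 := nbr3_of hC P.hxy.symm P.hy0 P.hy1 P.hy0x.symm
    P.hy1x.symm P.hy01
  have hcx : ∀ z, z ≠ P.x → z ≠ P.y → P.G.Adj P.x z → (L P.x z).card = 1 ∨ (L P.x z).card = 2 := by
    intro z h1 h2 h3
    have := card12 (hg z h1 h2) h3.symm
    rwa [hL.1 z P.x] at this
  have hcy : ∀ z, z ≠ P.x → z ≠ P.y → P.G.Adj P.y z → (L P.y z).card = 1 ∨ (L P.y z).card = 2 := by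
    intro z h1 h2 h3
    have := card12 (hg z h1 h2) h3.symm
    rwa [hL.1 z P.y] at this
  have c0 := hcx P.x0 P.hx0.ne' P.hx0y P.hx0
  have c1 := hcx P.x1 P.hx1.ne' P.hx1y P.hx1
  have c2 := hcy P.y0 P.hy0x P.hy0.ne' P.hy0
  have c3 := hcy P.y1 P.hy1x P.hy1.ne' P.hy1
  have s1 := card_symmDiff (L P.x P.x0) (L P.x P.x1)
  have s2 := card_symmDiff (L P.y P.y0) (L P.y P.y1)
  rw [← hZdef] at s1
  rw [← hZe] at s2
  have key : GT Z.card (L P.x P.x0).card (L P.x P.x1).card →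
      GT Z.card (L P.y P.y0).card (L P.y P.y1).card → False := by
    intro g1 g2
    let L' : P.V → P.V → Finset ℕ := fun v w =>
      if (v = P.x ∧ w = P.y) ∨ (v = P.y ∧ w = P.x) then Z else L v w
    have e1 : L' P.x P.y = Z := by simp [L']
    have e2 : L' P.y P.x = Z := by simp [L']
    have e3 : ∀ z, z ≠ P.y → L' P.x z = L P.x z := by
      intro z hz
      simp only [L']
      rw [if_neg]
      rintro (⟨_, h⟩ | ⟨h, _⟩)
      · exact hz h
      · exact P.hxy.ne h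
    have e4 : ∀ z, z ≠ P.x → L' P.y z = L P.y z := by
      intro z hz
      simp only [L']
      rw [if_neg]
      rintro (⟨h, _⟩ | ⟨_, h⟩)
      · exact P.hxy.ne h.symm
      · exact hz h
    have e5 : ∀ v, v ≠ P.x → v ≠ P.y → ∀ z, L' v z = L v z := by
      intro v h1 h2 z
      simp only [L']
      rw [if_neg]
      rintro (⟨h, _⟩ | ⟨h, _⟩)
      · exact h1 h
      · exact h2 h
    have ne : ∀ {S : Finset ℕ}, (S.card = 1 ∨ S.card = 2) → S.Nonempty := by
      intro S hS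
      rw [← Finset.card_pos]
      omega
    have hZn : Z.Nonempty := by
      rw [← Finset.card_pos]
      rcases g1 with h | h | h <;> omega
    have hvx : ValidAt P.G L' P.x := by
      refine valid_of hNx ?_ ?_ ?_ ?_
      · rw [e1, e3 _ P.hx0y, e3 _ P.hx1y]
      · rw [e1]
        exact hZn
      · rw [e3 _ P.hx0y]
        exact ne c0
      · rw [e3 _ P.hx1y]
        exact ne c1
    have hvy : ValidAt P.G L' P.y := by
      refine valid_of hNy ?_ ?_ ?_ ?_
      · rw [e2, e4 _ P.hy0x, e4 _ P.hy1x]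
        exact hZe
      · rw [e2]
        exact hZn
      · rw [e4 _ P.hy0x]
        exact ne c2
      · rw [e4 _ P.hy1x]
        exact ne c3
    obtain ⟨v, hv⟩ := hZ L' ⟨fun v w => by
      simp only [L']
      rw [hL.1 v w]
      by_cases h : (v = P.x ∧ w = P.y) ∨ (v = P.y ∧ w = P.x)
      · rw [if_pos h, if_pos (by tauto)]
      · rw [if_neg h, if_neg (by tauto)], fun v => by
      by_cases h1 : v = P.x
      · rw [h1]
        exact hvx
      by_cases h2 : v = P.y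
      · rw [h2]
        exact hvy
      intro w1 w2 w3 hw
      rw [e5 v h1 h2, e5 v h1 h2, e5 v h1 h2]
      exact hL.2 v h1 h2 w1 w2 w3 hw⟩
    apply hv
    by_cases h1 : v = P.x
    · rw [h1]
      apply good_of hNx
      rw [e1, e3 _ P.hx0y, e3 _ P.hx1y]
      exact g1
    by_cases h2 : v = P.y
    · rw [h2]
      apply good_of hNy
      rw [e2, e4 _ P.hy0x, e4 _ P.hy1x]
      exact g2
    obtain ⟨w1, w2, w3, hw, a1, a2, a3⟩ := hg v h1 h2
    refine ⟨w1, w2, w3, hw, ?_, ?_, ?_⟩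
    · rw [e5 v h1 h2]
      exact a1
    · rw [e5 v h1 h2]
      exact a2
    · rw [e5 v h1 h2]
      exact a3
  constructor
  · intro h1
    apply key
    · rw [h1] at s1 ⊢
      unfold GT
      omega
    · rw [h1] at s2 ⊢
      unfold GT
      omega
  · intro h2
    by_contra hcon
    push Not at hcon
    obtain ⟨n1, n2⟩ := hcon
    apply key
    · rw [h2] at s1 ⊢
      unfold GT
      omega
    · rw [h2] at s2 ⊢
      unfold GT
      omega

end Pool.Agent.Q279.SN.JZNC
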